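import Pool.Agent.D0H58.HS.Gen
import Pool.Agent.D0H58.OR.Main

/-! The certificate. -/

set_option autoImplicit false
set_option linter.unusedSectionVars false

universe u

open MvPolynomial

namespace Pool.Agent.D0H58.HS

open Pool.Agent.D0H58.OR (lift_poly)

section polys

variable {I σ A : Type*} [CommRing A] [Fintype I] [DecidableEq I] [Fintype σ] [DecidableEq σ] {N : ℕ}

/-- the value of a tensor as a polynomial in the values of the functionals at the small monomials -/
noncomputable def valP (ρ : (σ →₀ ℕ) → (σ → Fin N) → A) (T : MvPolynomial (I × σ) A) :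
    MvPolynomial (I × (σ → Fin N)) A :=
  ∑ α ∈ T.support, C (coeff α T) * ∏ i, ∑ β, C (ρ (part α i) β) * X (i, β)

/-- a minor -/
noncomputable def detP (A : Type*) [CommRing A] (β : I → σ → Fin N) :
    MvPolynomial (I × (σ → Fin N)) A :=
  (Matrix.of fun i j : I => (X (i, β j) : MvPolynomial (I × (σ → Fin N)) A)).det

variable {B : Type*} [CommRing B] (φ : A →+* B) (pt : I × (σ → Fin N) → B)

lemma eval_valP (ρ : (σ →₀ ℕ) → (σ → Fin N) → A) (T : MvPolynomial (I × σ) A) :
    eval₂ φ pt (valP ρ T) = val (fun i m => ∑ β, φ (ρ m β) * pt (i, β)) (map φ T) := by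
  unfold valP
  rw [val_eq _ (map φ T) T.support (support_map_subset _ _)]
  have h : ∀ Q, eval₂ φ pt Q = eval₂Hom φ pt Q := fun Q => rfl
  rw [h, map_sum]
  refine Finset.sum_congr rfl fun α _ => ?_
  rw [map_mul, map_prod, coeff_map]
  congr 1
  · simp
  · refine Finset.prod_congr rfl fun i _ => ?_
    simp

lemma eval_detP (β : I → σ → Fin N) :
    eval₂ φ pt (detP A β) = (Matrix.of fun i j : I => pt (i, β j)).det := by
  have h : ∀ Q, eval₂ φ pt Q = eval₂Hom φ pt Q := fun Q => rfl
  unfold detP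
  rw [h, RingHom.map_det]
  congr 1
  ext1 i j
  simp

lemma map_detP (β : I → σ → Fin N) : map φ (detP A β) = detP B β := by
  unfold detP
  rw [RingHom.map_det]
  congr 1
  ext1 i j
  simp

end polys

section eqs

variable {E I σ : Type*} [Field E] [Fintype I] [DecidableEq I] [Fintype σ] [DecidableEq σ]

/-- the equations -/
def eqs (q : σ → ℕ) (d : ℕ) {N : ℕ} (F : MvPolynomial σ E) (w : I → σ →₀ ℕ)
    (ρ : (σ →₀ ℕ) → (σ → Fin N) → E) : Set (MvPolynomial (I × (σ → Fin N)) E) :=
  {Q | (∃ i β, ¬ d ∣ Finsupp.weight q (bx β) + ∑ s, q s ∧ Q = X (i, β)) ∨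
    (∃ i, ∃ c : (σ → Fin N) → E, Ex F (∑ β, C (c β) * monomial (bx β) 1) ∧
      Q = ∑ β, C (c β) * X (i, β)) ∨ ∃ T, Gen F w T ∧ Q = valP ρ T}

/-- the Nullstellensatz -/
theorem certificate3 {k : Type*} [Field k] [Algebra E k] [IsAlgClosed k]
    (S : Set (MvPolynomial I E)) (D : MvPolynomial I E)
    (h : ∀ pt : I → k, (∀ Q ∈ S, eval₂ (algebraMap E k) pt Q = 0) →
      eval₂ (algebraMap E k) pt D = 0) : ∃ e : ℕ, D ^ e ∈ Ideal.span S := by
  have h1 : D ∈ (Ideal.span S).radical := by
    rw [← vanishingIdeal_zeroLocus_eq_radical (K := k), mem_vanishingIdeal_iff]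
    intro v hv
    rw [mem_zeroLocus_iff] at hv
    rw [aeval_def]
    apply h
    intro q hq
    have := hv q (Ideal.subset_span hq)
    rwa [aeval_def] at this
  exact h1

end eqs

/-- lifting of an exact form -/
lemma ex_lift {R E σ : Type*} [CommRing R] [Field E] [Fintype σ] [DecidableEq σ] (iR : R →+* E)
    (hiR : Function.Injective iR) (F : MvPolynomial σ E) (FR : MvPolynomial σ R) (hF : map iR FR = F)
    (Q : MvPolynomial σ E) (QR : MvPolynomial σ R) (hQ : map iR QR = Q)
    (P : σ → MvPolynomial σ E) (hP : Q = ∑ s, (pderiv s (P s) + P s * pderiv s F))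
    (hC : ∀ s, ∀ m, ∃ y, iR y = coeff m (P s)) : Ex FR QR := by
  choose PR hPR using fun s => lift_poly iR (P s) (hC s)
  refine ⟨PR, ?_⟩
  apply map_injective iR hiR
  rw [hQ, hP, map_sum]
  refine Finset.sum_congr rfl fun s _ => ?_
  rw [map_add, map_mul, ← pderiv_map, ← pderiv_map, hPR, hF]

/-- the coefficients of a polynomial and zero are in the image -/
lemma coeff_lift {R E σ : Type*} [CommRing R] [Field E] [DecidableEq E] (iR : R →+* E)
    (P : MvPolynomial σ E) (h : ∀ c ∈ P.support.image fun m => coeff m P, ∃ x, iR x = c)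
    (m : σ →₀ ℕ) : ∃ y, iR y = coeff m P := by
  by_cases hm : m ∈ P.support
  · exact h _ (Finset.mem_image_of_mem _ hm)
  · exact ⟨0, by rw [map_zero, notMem_support_iff.1 hm]⟩

/-- transfer to positive characteristic -/
lemma transfer {E : Type u} {I σ : Type*} [Field E] [Fintype I] [DecidableEq I] [Fintype σ]
    [DecidableEq σ] (q : σ → ℕ) (d N : ℕ) (F : MvPolynomial σ E) (w : I → σ →₀ ℕ)
    (ρ : (σ →₀ ℕ) → (σ → Fin N) → E)
    (hρ : ∀ m, Ex F (monomial m 1 - ∑ β, C (ρ m β) * monomial (bx β) 1))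
    (x : MvPolynomial (I × (σ → Fin N)) E) (hx : x ∈ Ideal.span (eqs q d F w ρ)) :
    ∃ (C0 : Finset E) (Δ : Finset (Derivation ℤ E E)),
      ∀ (R S K : Type u) [CommRing R] [CommRing S] [Field K] (Y : Spec F w R S) (φ : S →+* K)
        (pt : I × (σ → Fin N) → K), Y.Ok C0 Δ →
        (∀ i β, pt (i, β) = φ (Y.l i (monomial (bx β) 1))) →
        (∀ i β, ¬ d ∣ Finsupp.weight q (bx β) + ∑ s, q s → pt (i, β) = 0) →
        (∀ i s P, Y.l i (pderiv s P + P * pderiv s (map Y.π Y.FR)) = 0) →
        ∃ y : MvPolynomial (I × (σ → Fin N)) R, map Y.iR y = x ∧ eval₂ (φ.comp Y.π) pt y = 0 := by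
  classical
  induction hx using Submodule.span_induction with
  | mem x hx =>
    rcases hx with ⟨i, β, hβ, rfl⟩ | ⟨i, c, hc, rfl⟩ | ⟨T, hT, rfl⟩
    · exact ⟨∅, ∅, fun R S K _ _ _ Y φ pt _ _ h2 _ => ⟨X (i, β), map_X _ _, by
        rw [eval₂_X]; exact h2 i β hβ⟩⟩
    · obtain ⟨P, hP⟩ := hc
      refine ⟨(Finset.univ.image c) ∪ Finset.univ.biUnion fun s =>
        (P s).support.image fun m => coeff m (P s), ∅, fun R S K _ _ _ Y φ pt hY h1 _ h3 => ?_⟩
      have hc1 : ∀ β, ∃ y, Y.iR y = c β := fun β => hY.1 _ (Finset.mem_union_left _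
        (Finset.mem_image_of_mem _ (Finset.mem_univ β)))
      choose cR hcR using hc1
      have hex := ex_lift Y.iR Y.hiR F Y.FR Y.hFR (∑ β, C (c β) * monomial (bx β) 1)
        (∑ β, C (cR β) * monomial (bx β) 1) (by
          rw [map_sum]
          refine Finset.sum_congr rfl fun β _ => ?_
          rw [map_mul, map_C, hcR, map_monomial, map_one]) P hP (fun s => coeff_lift Y.iR (P s)
            fun c hc => hY.1 c (Finset.mem_union_right _ (Finset.mem_biUnion.2
              ⟨s, Finset.mem_univ s, hc⟩)))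
      refine ⟨∑ β, C (cR β) * X (i, β), ?_, ?_⟩
      · rw [map_sum]
        refine Finset.sum_congr rfl fun β _ => ?_
        rw [map_mul, map_C, hcR, map_X]
      · have h4 := functional_eq (F := map Y.π Y.FR) (Y.l i) (fun s P => h3 i s P) _ (hex.map Y.π)
        rw [map_sum, map_sum] at h4
        have h5 := congrArg φ h4
        rw [map_sum, map_zero] at h5
        have h6 : ∀ Q, eval₂ (φ.comp Y.π) pt Q = eval₂Hom (φ.comp Y.π) pt Q := fun Q => rfl
        rw [h6, map_sum, ← h5]
        refine Finset.sum_congr rfl fun β _ => ?_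
        rw [map_mul, coe_eval₂Hom, eval₂_C, eval₂_X, h1, map_mul, map_C, map_monomial, RingHom.map_one,
          ← smul_eq_C_mul, map_smul, smul_eq_mul, map_mul]
        rfl
    · obtain ⟨C1, Δ, h⟩ := gen_good F w T hT
      choose P hP using hρ
      obtain ⟨M0, hM0⟩ : ∃ M0 : Finset (σ →₀ ℕ), M0 = T.support.biUnion fun α =>
        Finset.univ.image fun i => part α i := ⟨_, rfl⟩
      refine ⟨C1 ∪ ((M0.biUnion fun m => Finset.univ.image fun β => ρ m β) ∪
        M0.biUnion fun m => Finset.univ.biUnion fun s =>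
          (P m s).support.image fun m' => coeff m' (P m s)), Δ,
        fun R S K _ _ _ Y φ pt hY h1 _ h3 => ?_⟩
      obtain ⟨TR, h4, h5⟩ := h R S Y (hY.mono Finset.subset_union_left subset_rfl)
      have hρ1 : ∀ m, ∃ r : (σ → Fin N) → R, m ∈ M0 → ∀ β, Y.iR (r β) = ρ m β := by
        intro m
        by_cases hm : m ∈ M0
        · have h6 : ∀ β, ∃ y, Y.iR y = ρ m β := fun β => hY.1 _ (Finset.mem_union_right _
            (Finset.mem_union_left _ (Finset.mem_biUnion.2 ⟨m, hm, Finset.mem_image_of_mem _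
              (Finset.mem_univ β)⟩)))
          choose r hr using h6
          exact ⟨r, fun _ => hr⟩
        · exact ⟨0, fun h => absurd h hm⟩
      choose ρR hρR using hρ1
      have hred : ∀ i, ∀ m ∈ M0, Y.l i (monomial m 1) =
          ∑ β, Y.π (ρR m β) * Y.l i (monomial (bx β) 1) := by
        intro i m hm
        have hex := ex_lift Y.iR Y.hiR F Y.FR Y.hFR (monomial m 1 - ∑ β, C (ρ m β) * monomial (bx β) 1)
          (monomial m 1 - ∑ β, C (ρR m β) * monomial (bx β) 1) (by
            rw [map_sub, map_monomial, map_one, map_sum]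
            congr 1
            refine Finset.sum_congr rfl fun β _ => ?_
            rw [map_mul, map_C, hρR m hm, map_monomial, map_one]) (P m) (hP m)
              (fun s => coeff_lift Y.iR (P m s)
              fun c hc => hY.1 c (Finset.mem_union_right _ (Finset.mem_union_right _
                (Finset.mem_biUnion.2 ⟨m, hm, Finset.mem_biUnion.2 ⟨s, Finset.mem_univ s, hc⟩⟩))))
        have h6 := functional_eq (F := map Y.π Y.FR) (Y.l i) (fun s P => h3 i s P) _ (hex.map Y.π)
        rw [map_sub, map_sub, map_monomial, RingHom.map_one, map_sum, map_sum, sub_eq_zero] at h6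
        rw [h6]
        refine Finset.sum_congr rfl fun β _ => ?_
        rw [map_mul, map_C, map_monomial, RingHom.map_one, ← smul_eq_C_mul, map_smul, smul_eq_mul]
      have hsupp : T.support = TR.support := by
        rw [← h4]
        exact support_map_of_injective _ Y.hiR
      refine ⟨valP ρR TR, ?_, ?_⟩
      · unfold valP
        rw [map_sum, hsupp]
        refine Finset.sum_congr rfl fun α hα => ?_
        rw [map_mul, map_C, map_prod, ← coeff_map, h4]
        congr 1
        refine Finset.prod_congr rfl fun i _ => ?_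
        rw [map_sum]
        refine Finset.sum_congr rfl fun β _ => ?_
        rw [map_mul, map_C, map_X, hρR]
        rw [hM0, hsupp]
        exact Finset.mem_biUnion.2 ⟨α, hα, Finset.mem_image_of_mem _ (Finset.mem_univ i)⟩
      · rw [eval_valP]
        have h7 := congrArg φ h5
        rw [map_zero, val_eq _ (map Y.π TR) TR.support (support_map_subset _ _), map_sum] at h7
        rw [← h7, val_eq _ (map (φ.comp Y.π) TR) TR.support (support_map_subset _ _)]
        refine Finset.sum_congr rfl fun α hα => ?_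
        rw [map_mul, map_prod, coeff_map, coeff_map, RingHom.comp_apply]
        congr 1
        refine Finset.prod_congr rfl fun i _ => ?_
        rw [hred i (part α i) (by
          rw [hM0, hsupp]
          exact Finset.mem_biUnion.2 ⟨α, hα, Finset.mem_image_of_mem _ (Finset.mem_univ i)⟩), map_sum]
        refine Finset.sum_congr rfl fun β _ => ?_
        rw [map_mul, h1, RingHom.comp_apply]
  | zero => exact ⟨∅, ∅, fun R S K _ _ _ Y φ pt _ _ _ _ => ⟨0, map_zero _, by simp⟩⟩
  | add x y _ _ hx hy =>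
    obtain ⟨C1, Δ, h1⟩ := hx
    obtain ⟨C', Δ', h2⟩ := hy
    refine ⟨C1 ∪ C', Δ ∪ Δ', fun R S K _ _ _ Y φ pt hY h3 h4 h5 => ?_⟩
    obtain ⟨x', hx1, hx2⟩ := h1 R S K Y φ pt
      (hY.mono Finset.subset_union_left Finset.subset_union_left) h3 h4 h5
    obtain ⟨y', hy1, hy2⟩ := h2 R S K Y φ pt
      (hY.mono Finset.subset_union_right Finset.subset_union_right) h3 h4 h5
    exact ⟨x' + y', by rw [map_add, hx1, hy1], by rw [eval₂_add, hx2, hy2, add_zero]⟩
  | smul c x _ hx =>
    obtain ⟨C1, Δ, h1⟩ := hx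
    refine ⟨C1 ∪ c.support.image fun m => coeff m c, Δ, fun R S K _ _ _ Y φ pt hY h3 h4 h5 => ?_⟩
    obtain ⟨x', hx1, hx2⟩ := h1 R S K Y φ pt
      (hY.mono Finset.subset_union_left subset_rfl) h3 h4 h5
    obtain ⟨c', hc'⟩ := lift_poly Y.iR c (coeff_lift Y.iR c fun c hc =>
      hY.1 _ (Finset.mem_union_right _ hc))
    exact ⟨c' * x', by rw [map_mul, hc', hx1, smul_eq_mul], by rw [eval₂_mul, hx2, mul_zero]⟩

end Pool.Agent.D0H58.HS
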