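import Mathlib

/-! Horizontal functionals on the Dwork cohomology of quasi-homogeneous polynomials in positive
characteristic. -/

set_option autoImplicit false

open MvPolynomial

namespace Pool.Agent.D0H58.HS

section Dm

variable {σ A : Type*} [CommRing A] (D : Derivation ℤ A A)

/-- a derivation applied to the coefficients -/
noncomputable def Dm (P : MvPolynomial σ A) : MvPolynomial σ A :=
  ∑ m ∈ P.support, monomial m (D (P.coeff m))

lemma coeff_Dm (P : MvPolynomial σ A) (m : σ →₀ ℕ) : coeff m (Dm D P) = D (coeff m P) := by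
  classical
  unfold Dm
  rw [coeff_sum]
  simp only [coeff_monomial]
  rw [Finset.sum_ite_eq']
  split_ifs with h
  · rfl
  · rw [notMem_support_iff.1 h, map_zero]

lemma Dm_add (P Q : MvPolynomial σ A) : Dm D (P + Q) = Dm D P + Dm D Q := by
  ext m
  rw [coeff_Dm, coeff_add, coeff_add, coeff_Dm, coeff_Dm, map_add]

lemma Dm_mul (P Q : MvPolynomial σ A) : Dm D (P * Q) = Dm D P * Q + P * Dm D Q := by
  classical
  ext m
  rw [coeff_Dm, coeff_add, coeff_mul, coeff_mul, coeff_mul, map_sum, ← Finset.sum_add_distrib]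
  refine Finset.sum_congr rfl fun x _ => ?_
  rw [Derivation.leibniz, coeff_Dm, coeff_Dm, smul_eq_mul, smul_eq_mul]
  ring

lemma Dm_zero : Dm D (0 : MvPolynomial σ A) = 0 := by
  ext m
  rw [coeff_Dm, coeff_zero, map_zero]

lemma Dm_monomial (m : σ →₀ ℕ) (a : A) : Dm D (monomial m a) = monomial m (D a) := by
  classical
  ext m'
  rw [coeff_Dm, coeff_monomial, coeff_monomial]
  split_ifs <;> simp

/-- the derivation as a derivation of the polynomial ring -/
noncomputable def DmD : Derivation ℤ (MvPolynomial σ A) (MvPolynomial σ A) :=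
  Derivation.mk' ({ toFun := Dm D, map_zero' := Dm_zero D, map_add' := Dm_add D } :
    MvPolynomial σ A →+ MvPolynomial σ A).toIntLinearMap (by
      intro P Q
      change Dm D (P * Q) = P • Dm D Q + Q • Dm D P
      rw [Dm_mul, smul_eq_mul, smul_eq_mul]
      ring)

lemma DmD_apply (P : MvPolynomial σ A) : DmD D P = Dm D P := rfl

lemma isWeightedHomogeneous_Dm (q : σ → ℕ) (F : MvPolynomial σ A) (d : ℕ)
    (h : IsWeightedHomogeneous q F d) : IsWeightedHomogeneous q (Dm D F) d := by
  intro m hm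
  apply h
  intro h0
  apply hm
  rw [coeff_Dm, h0, map_zero]

end Dm

section trunc

variable {σ A : Type*} [CommRing A] (p : ℕ) [Fact p.Prime]

/-- the inverse factorials -/
def ifac (A : Type*) [CommRing A] (p j : ℕ) : A := ((((j.factorial : ZMod p)⁻¹).val : ℕ) : A)

lemma ifac_eq (A : Type*) [CommRing A] (p : ℕ) [Fact p.Prime] [CharP A p] (j : ℕ) : ifac A p j =
    ZMod.castHom (dvd_refl p) A ((j.factorial : ZMod p)⁻¹) := by
  unfold ifac
  rw [ZMod.castHom_apply, ZMod.natCast_val]

lemma fac_ne (p : ℕ) [Fact p.Prime] (j : ℕ) (hj : j < p) : (j.factorial : ZMod p) ≠ 0 := by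
  intro h
  rw [ZMod.natCast_eq_zero_iff] at h
  have := ((Fact.out : p.Prime).dvd_factorial).1 h
  omega

lemma ifac_mul (A : Type*) [CommRing A] (p : ℕ) [Fact p.Prime] [CharP A p] (j : ℕ) (hj : j < p) :
    ifac A p j * (j.factorial : A) = 1 := by
  rw [ifac_eq]
  have h1 : (j.factorial : A) = ZMod.castHom (dvd_refl p) A (j.factorial : ZMod p) := by simp
  rw [h1, ← map_mul, inv_mul_cancel₀ (fac_ne p j hj), map_one]

lemma ifac_zero (A : Type*) [CommRing A] (p : ℕ) [Fact p.Prime] [CharP A p] : ifac A p 0 = 1 := by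
  have := ifac_mul A p 0 (Fact.out : p.Prime).pos
  simpa using this

lemma ifac_succ (A : Type*) [CommRing A] (p : ℕ) [Fact p.Prime] [CharP A p] (j : ℕ) (hj : j + 1 < p) :
    ((j + 1 : ℕ) : A) * ifac A p (j + 1) = ifac A p j := by
  have h1 := ifac_mul A p (j + 1) hj
  have h2 := ifac_mul A p j (by omega)
  rw [Nat.factorial_succ, Nat.cast_mul] at h1
  calc ((j + 1 : ℕ) : A) * ifac A p (j + 1) =
      (ifac A p j * (j.factorial : A)) * (((j + 1 : ℕ) : A) * ifac A p (j + 1)) := by
        rw [h2, one_mul]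
    _ = ifac A p j * (ifac A p (j + 1) * (((j + 1 : ℕ) : A) * (j.factorial : A))) := by ring
    _ = ifac A p j := by rw [h1, mul_one]

/-- the truncated exponential series -/
noncomputable def Ep (p : ℕ) (F : MvPolynomial σ A) : MvPolynomial σ A :=
  ∑ j ∈ Finset.range p, C (ifac A p j) * F ^ j

variable [CharP A p]

/-- derivative of the truncated exponential series -/
lemma deriv_Ep (Δ : Derivation ℤ (MvPolynomial σ A) (MvPolynomial σ A)) (F : MvPolynomial σ A) :
    Δ (Ep p F) = Δ F * (Ep p F - C (ifac A p (p - 1)) * F ^ (p - 1)) := by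
  obtain ⟨r, hr⟩ : ∃ r, p = r + 1 := ⟨p - 1, by have := (Fact.out : p.Prime).pos; omega⟩
  have h1 : ∀ j, Δ (C (ifac A p j) * F ^ j) = C (ifac A p j) * ((j : MvPolynomial σ A) *
      F ^ (j - 1) * Δ F) := by
    intro j
    have h2 : (C (ifac A p j) : MvPolynomial σ A) =
        ((((j.factorial : ZMod p)⁻¹).val : ℕ) : MvPolynomial σ A) := by
      unfold ifac
      rw [map_natCast]
    rw [Derivation.leibniz, Derivation.leibniz_pow]
    nth_rewrite 2 [h2]
    rw [Derivation.map_natCast, smul_zero, add_zero, smul_eq_mul, smul_eq_mul, nsmul_eq_mul]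
    ring
  unfold Ep
  rw [map_sum, Finset.sum_congr rfl fun j _ => h1 j]
  have h3 : ∑ j ∈ Finset.range p, C (ifac A p j) * ((j : MvPolynomial σ A) * F ^ (j - 1) * Δ F) =
      ∑ j ∈ Finset.range r, C (ifac A p j) * F ^ j * Δ F := by
    rw [hr, Finset.sum_range_succ']
    simp only [Nat.cast_zero, zero_mul, mul_zero, add_zero, Nat.add_sub_cancel]
    refine Finset.sum_congr rfl fun j hj => ?_
    rw [Finset.mem_range] at hj
    have h4 := ifac_succ A p j (by omega)
    rw [hr] at h4
    rw [← h4, map_mul, map_natCast]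
    ring
  rw [h3]
  have h5 : ∑ j ∈ Finset.range p, C (ifac A p j) * F ^ j =
      ∑ j ∈ Finset.range r, C (ifac A p j) * F ^ j + C (ifac A p (p - 1)) * F ^ (p - 1) := by
    have h6 : p - 1 = r := by omega
    rw [h6]
    nth_rewrite 1 [hr]
    rw [Finset.sum_range_succ]
  rw [h5, add_sub_cancel_right, Finset.mul_sum]
  refine Finset.sum_congr rfl fun j _ => ?_
  ring

end trunc

section weights

variable {σ A : Type*} [CommRing A] (q : σ → ℕ)

lemma coeff_mul_eq_zero (P G : MvPolynomial σ A) (N : ℕ) (hG : IsWeightedHomogeneous q G N)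
    (e : σ →₀ ℕ) (he : Finsupp.weight q e < N) : coeff e (P * G) = 0 := by
  classical
  rw [coeff_mul]
  apply Finset.sum_eq_zero
  intro x hx
  rw [Finset.HasAntidiagonal.mem_antidiagonal] at hx
  by_cases h : coeff x.2 G = 0
  · rw [h, mul_zero]
  · exfalso
    have h1 := hG h
    have h2 : Finsupp.weight q e = Finsupp.weight q x.1 + Finsupp.weight q x.2 := by
      rw [← hx, map_add]
    rw [h1] at h2
    omega

lemma isWeightedHomogeneous_pderiv [DecidableEq σ] (F : MvPolynomial σ A) (d : ℕ)
    (h : IsWeightedHomogeneous q F d) (s : σ) :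
    IsWeightedHomogeneous q (pderiv s F) (d - q s) := by
  intro m hm
  rw [F.as_sum, map_sum, coeff_sum] at hm
  obtain ⟨m', hm', hne⟩ := Finset.exists_ne_zero_of_sum_ne_zero hm
  rw [pderiv_monomial, coeff_monomial] at hne
  split_ifs at hne with h1
  · have h2 := h (mem_support_iff.1 hm')
    have h3 : m' s ≠ 0 := by
      intro h0
      apply hne
      rw [h0]; simp
    have h4 : m' = m + Finsupp.single s 1 := by
      rw [← h1, tsub_add_cancel_of_le]
      rw [Finsupp.single_le_iff]
      omega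
    rw [h4, map_add, Finsupp.weight_single, smul_eq_mul, one_mul] at h2
    omega
  · exact absurd rfl hne

end weights

section lam

variable {σ A : Type*} [CommRing A] (p : ℕ)

/-- the functional given by the coefficient of `exp(F)` times a polynomial -/
noncomputable def lm (F : MvPolynomial σ A) (e : σ →₀ ℕ) : MvPolynomial σ A →ₗ[A] A where
  toFun P := coeff e (P * Ep p F)
  map_add' P Q := by rw [add_mul, coeff_add]
  map_smul' c P := by rw [smul_mul_assoc, coeff_smul, RingHom.id_apply]

lemma lm_apply (F : MvPolynomial σ A) (e : σ →₀ ℕ) (P : MvPolynomial σ A) :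
    lm p F e P = coeff e (P * Ep p F) := rfl

/-- all exponents are congruent to `-1` -/
def Top (e : σ →₀ ℕ) : Prop := ∀ s, p ∣ e s + 1

lemma coeff_pderiv_top [CharP A p] (e : σ →₀ ℕ) (he : Top p e) (s : σ) (G : MvPolynomial σ A) :
    coeff e (pderiv s G) = 0 := by
  classical
  rw [G.as_sum, map_sum, coeff_sum]
  apply Finset.sum_eq_zero
  intro m _
  rw [pderiv_monomial, coeff_monomial]
  split_ifs with h1
  · rcases Nat.eq_zero_or_pos (m s) with h0 | h0
    · rw [h0]; simp
    · have h2 : m s = e s + 1 := by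
        have := DFunLike.congr_fun h1 s
        rw [Finsupp.tsub_apply, Finsupp.single_eq_same] at this
        omega
      rw [h2]
      have h3 : ((e s + 1 : ℕ) : A) = 0 := (CharP.cast_eq_zero_iff A p _).2 (he s)
      rw [h3, mul_zero]
  · rfl

variable [Fact p.Prime] [CharP A p] (q : σ → ℕ)

/-- the functional kills the exact forms -/
lemma lm_exact [DecidableEq σ] (F : MvPolynomial σ A) (d : ℕ) (hF : IsWeightedHomogeneous q F d)
    (e : σ →₀ ℕ) (he : Top p e) (s : σ) (hes : Finsupp.weight q e + q s < p * d)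
    (P : MvPolynomial σ A) : lm p F e (pderiv s P + P * pderiv s F) = 0 := by
  have h1 := coeff_pderiv_top (A := A) p e he s (P * Ep p F)
  have h2 : pderiv s (Ep p F) = pderiv s F * (Ep p F - C (ifac A p (p - 1)) * F ^ (p - 1)) :=
    deriv_Ep p ((pderiv s).restrictScalars ℤ) F
  rw [Derivation.leibniz, smul_eq_mul, smul_eq_mul, h2] at h1
  rw [lm_apply]
  have h3 : (pderiv s P + P * pderiv s F) * Ep p F = (P * (pderiv s F * (Ep p F -
      C (ifac A p (p - 1)) * F ^ (p - 1))) + Ep p F * pderiv s P) +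
      (C (ifac A p (p - 1)) * P) * (pderiv s F * F ^ (p - 1)) := by
    ring
  rw [h3, coeff_add, h1, zero_add]
  apply coeff_mul_eq_zero q _ _ ((d - q s) + (p - 1) * d)
  · have h4 := (isWeightedHomogeneous_pderiv q F d hF s).mul (hF.pow (p - 1))
    rwa [smul_eq_mul] at h4
  · have hp := (Fact.out : p.Prime).pos
    obtain ⟨r, hr⟩ : ∃ r, p = r + 1 := ⟨p - 1, by omega⟩
    rw [hr, Nat.add_sub_cancel]
    rw [hr, add_mul, one_mul] at hes
    omega

/-- the functional is horizontal -/
lemma lm_deriv (D : Derivation ℤ A A) (F : MvPolynomial σ A) (d : ℕ)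
    (hF : IsWeightedHomogeneous q F d) (e : σ →₀ ℕ) (he : Finsupp.weight q e < p * d)
    (P : MvPolynomial σ A) : D (lm p F e P) = lm p F e (Dm D P + Dm D F * P) := by
  rw [lm_apply, lm_apply, ← coeff_Dm, Dm_mul]
  have h2 : Dm D (Ep p F) = Dm D F * (Ep p F - C (ifac A p (p - 1)) * F ^ (p - 1)) :=
    deriv_Ep p (DmD D) F
  rw [h2]
  have h3 : (Dm D P + Dm D F * P) * Ep p F = (Dm D P * Ep p F + P * (Dm D F * (Ep p F -
      C (ifac A p (p - 1)) * F ^ (p - 1)))) +
      (C (ifac A p (p - 1)) * P) * (Dm D F * F ^ (p - 1)) := by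
    ring
  rw [h3, coeff_add _ (Dm D P * Ep p F + _)]
  rw [coeff_mul_eq_zero q _ _ (d + (p - 1) * d), add_zero]
  · have h4 := (isWeightedHomogeneous_Dm D q F d hF).mul (hF.pow (p - 1))
    rwa [smul_eq_mul] at h4
  · have hp := (Fact.out : p.Prime).pos
    obtain ⟨r, hr⟩ : ∃ r, p = r + 1 := ⟨p - 1, by omega⟩
    rw [hr, Nat.add_sub_cancel]
    rw [hr, add_mul, one_mul] at he
    omega

/-- only one power contributes -/
lemma lm_monomial (F : MvPolynomial σ A) (d : ℕ) (hd : 0 < d) (hF : IsWeightedHomogeneous q F d)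
    (e w : σ →₀ ℕ) (j : ℕ) (hj : j < p) (he : Finsupp.weight q e = Finsupp.weight q w + j * d) :
    lm p F e (monomial w 1) = ifac A p j * coeff e (monomial w 1 * F ^ j) := by
  classical
  rw [lm_apply, Ep, Finset.mul_sum, coeff_sum, Finset.sum_eq_single j]
  · rw [← coeff_C_mul]
    congr 1
    ring
  · intro b _ hb
    have h1 : monomial w 1 * (C (ifac A p b) * F ^ b) = C (ifac A p b) * (monomial w 1 * F ^ b) := by
      ring
    rw [h1, coeff_C_mul]
    have h2 : IsWeightedHomogeneous q (monomial w (1 : A) * F ^ b) (Finsupp.weight q w + b * d) := by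
      have := (isWeightedHomogeneous_monomial q w (1 : A) rfl).mul (hF.pow b)
      rwa [smul_eq_mul] at this
    rw [h2.coeff_eq_zero, mul_zero]
    rw [he]
    intro h3
    apply hb
    have h4 : j * d = b * d := by omega
    exact (Nat.eq_of_mul_eq_mul_right hd h4).symm
  · intro h; exact absurd (Finset.mem_range.2 hj) h

end lam

end Pool.Agent.D0H58.HS
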