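import Pool.Agent.D0H58.HS.Null

/-! The criterion for hypersurfaces. -/

set_option autoImplicit false
set_option linter.unusedSectionVars false

universe u

open MvPolynomial

namespace Pool.Agent.D0H58.HS

/-- The condition: the generated tensors are not killed by linearly independent functionals. -/
def Big {k I σ : Type*} [Field k] [Fintype I] [DecidableEq I] [Fintype σ] (q : σ → ℕ)
    (d : ℕ) (F : MvPolynomial σ k) (w : I → σ →₀ ℕ) : Prop :=
  ∀ μ : I → MvPolynomial σ k →ₗ[k] k, LinearIndependent k μ →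
    (∀ i s P, μ i (pderiv s P + P * pderiv s F) = 0) →
    (∀ i m, ¬ d ∣ Finsupp.weight q m + ∑ s, q s → μ i (monomial m 1) = 0) →
    ∃ T, Gen F w T ∧ val (fun i m => μ i (monomial m 1)) T ≠ 0

/-- certificates over a finitely generated field -/
lemma cert_of_big {k E I σ : Type*} [Field k] [IsAlgClosed k] [Field E] [Algebra E k] [Fintype I]
    [DecidableEq I] [Fintype σ] [DecidableEq σ] (q : σ → ℕ) (d N : ℕ) (F : MvPolynomial σ E)
    (w : I → σ →₀ ℕ) (ρ : (σ →₀ ℕ) → (σ → Fin N) → E)
    (hρ1 : ∀ m β, ρ m β ≠ 0 → Finsupp.weight q (bx β) ≡ Finsupp.weight q m [MOD d])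
    (hρ : ∀ m, Ex F (monomial m 1 - ∑ β, C (ρ m β) * monomial (bx β) 1))
    (h : Big q d (map (algebraMap E k) F) w) (β : I → σ → Fin N) :
    ∃ e : ℕ, (detP E β) ^ e ∈ Ideal.span (eqs q d F w ρ) := by
  classical
  apply certificate3 (k := k)
  intro pt hpt
  by_contra hne
  rw [eval_detP] at hne
  obtain ⟨ι, hι⟩ : ∃ ι : E →+* k, ι = algebraMap E k := ⟨_, rfl⟩
  rw [← hι] at hpt h
  -- the equations
  have hZ : ∀ i β, ¬ d ∣ Finsupp.weight q (bx β) + ∑ s, q s → pt (i, β) = 0 := by
    intro i β hβ
    have := hpt _ (Or.inl ⟨i, β, hβ, rfl⟩)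
    rwa [eval₂_X] at this
  have hL : ∀ i, ∀ c : (σ → Fin N) → E, Ex F (∑ β, C (c β) * monomial (bx β) 1) →
      ∑ β, ι (c β) * pt (i, β) = 0 := by
    intro i c hc
    have := hpt _ (Or.inr (Or.inl ⟨i, c, hc, rfl⟩))
    have h6 : ∀ Q, eval₂ ι pt Q = eval₂Hom ι pt Q := fun Q => rfl
    rw [h6, map_sum] at this
    rw [← this]
    refine Finset.sum_congr rfl fun β _ => ?_
    simp
  have hT : ∀ T₀, Gen F w T₀ → val (fun i m => ∑ β, ι (ρ m β) * pt (i, β)) (map ι T₀) = 0 := by
    intro T₀ hT₀
    have := hpt _ (Or.inr (Or.inr ⟨T₀, hT₀, rfl⟩))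
    rwa [eval_valP] at this
  -- the functionals
  obtain ⟨μ, hμ⟩ : ∃ μ : I → MvPolynomial σ k →ₗ[k] k, ∀ i m, μ i (monomial m 1) =
      ∑ β, ι (ρ m β) * pt (i, β) := by
    refine ⟨fun i => (basisMonomials σ k).constr k fun m => ∑ β, ι (ρ m β) * pt (i, β),
      fun i m => ?_⟩
    have h1 := (basisMonomials σ k).constr_basis k (fun m => ∑ β, ι (ρ m β) * pt (i, β)) m
    rwa [coe_basisMonomials] at h1
  have hμE : ∀ i Q, Ex F Q → μ i (map ι Q) = 0 := by
    intro i Q hQ
    have h1 : μ i (map ι Q) = ∑ m ∈ Q.support, ι (coeff m Q) * μ i (monomial m 1) := by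
      conv_lhs => rw [Q.as_sum, map_sum, map_sum]
      refine Finset.sum_congr rfl fun m _ => ?_
      have e1 : (monomial m (ι (coeff m Q)) : MvPolynomial σ k) =
          ι (coeff m Q) • monomial m 1 := by
        rw [smul_monomial, smul_eq_mul, mul_one]
      rw [map_monomial, e1, map_smul, smul_eq_mul]
    have h2 : μ i (map ι Q) = ∑ β, ι (∑ m ∈ Q.support, coeff m Q * ρ m β) * pt (i, β) := by
      rw [h1]
      simp only [hμ, map_sum, Finset.sum_mul, Finset.mul_sum]
      rw [Finset.sum_comm]
      refine Finset.sum_congr rfl fun β _ => Finset.sum_congr rfl fun m _ => ?_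
      rw [map_mul]; ring
    rw [h2]
    apply hL
    have e3 : ∑ β, C (∑ m ∈ Q.support, coeff m Q * ρ m β) * monomial (bx β) (1 : E) =
        Q + (-∑ m ∈ Q.support, C (coeff m Q) *
          (monomial m 1 - ∑ β, C (ρ m β) * monomial (bx β) 1)) := by
      have e4 : ∑ m ∈ Q.support, C (coeff m Q) * (monomial m (1 : E) -
          ∑ β, C (ρ m β) * monomial (bx β) 1) = Q - ∑ m ∈ Q.support, C (coeff m Q) *
            ∑ β, C (ρ m β) * monomial (bx β) 1 := by
        simp only [mul_sub, Finset.sum_sub_distrib]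
        congr 1
        conv_rhs => rw [Q.as_sum]
        refine Finset.sum_congr rfl fun m _ => ?_
        rw [C_mul_monomial, mul_one]
      rw [e4, neg_sub, add_sub_cancel]
      simp only [map_sum, Finset.sum_mul, Finset.mul_sum]
      rw [Finset.sum_comm]
      refine Finset.sum_congr rfl fun m _ => Finset.sum_congr rfl fun β _ => ?_
      rw [C_mul]; ring
    rw [e3]
    exact hQ.add (Ex.neg (Ex.sum _ _ fun m _ => (hρ m).C_mul _))
  have hμ1 : ∀ i s P, μ i (pderiv s P + P * pderiv s (map ι F)) = 0 := by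
    intro i s P
    induction P using MvPolynomial.induction_on' with
    | monomial m a =>
      have e1 : (monomial m a : MvPolynomial σ k) = C a * map ι (monomial m 1) := by
        rw [map_monomial, map_one, C_mul_monomial, mul_one]
      have e2 : pderiv s (monomial m a) + monomial m a * pderiv s (map ι F) =
          a • map ι (pderiv s (monomial m 1) + monomial m 1 * pderiv s F) := by
        rw [smul_eq_C_mul, map_add, map_mul, ← pderiv_map, ← pderiv_map, e1, pderiv_C_mul]
        ring
      rw [e2, map_smul, hμE i _ (Ex.single s _), smul_zero]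
    | add P Q hP hQ =>
      have e1 : pderiv s (P + Q) + (P + Q) * pderiv s (map ι F) =
          (pderiv s P + P * pderiv s (map ι F)) + (pderiv s Q + Q * pderiv s (map ι F)) := by
        rw [map_add]; ring
      rw [e1, map_add, hP, hQ, add_zero]
  have hμ2 : ∀ i m, ¬ d ∣ Finsupp.weight q m + ∑ s, q s → μ i (monomial m 1) = 0 := by
    intro i m hm
    rw [hμ]
    apply Finset.sum_eq_zero
    intro β _
    by_cases h0 : ρ m β = 0
    · rw [h0, map_zero, zero_mul]
    · rw [hZ i β, mul_zero]
      intro h1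
      apply hm
      have h2 := (hρ1 m β h0).add_right (∑ s, q s)
      exact (h2.dvd_iff (dvd_refl d)).1 h1
  have hμ3 : ∀ i β, μ i (monomial (bx β) 1) = pt (i, β) := by
    intro i β
    have h1 := hL i (Pi.single β 1 - ρ (bx β)) (by
      have e1 : ∑ β', C ((Pi.single β 1 - ρ (bx β) : (σ → Fin N) → E) β') *
          monomial (bx β') (1 : E) = monomial (bx β) 1 - ∑ β', C (ρ (bx β) β') *
            monomial (bx β') 1 := by
        simp only [Pi.sub_apply, C_sub, sub_mul, Finset.sum_sub_distrib]
        congr 1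
        rw [Finset.sum_eq_single β]
        · rw [Pi.single_eq_same, C_1, one_mul]
        · intro b _ hb
          rw [Pi.single_eq_of_ne hb, C_0, zero_mul]
        · intro h3; exact absurd (Finset.mem_univ _) h3
      rw [e1]
      exact hρ _)
    simp only [Pi.sub_apply, map_sub, sub_mul, Finset.sum_sub_distrib] at h1
    rw [Finset.sum_eq_single β, Pi.single_eq_same, map_one, one_mul] at h1
    · rw [hμ]
      exact (sub_eq_zero.1 h1).symm
    · intro b _ hb
      rw [Pi.single_eq_of_ne hb, map_zero, zero_mul]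
    · intro h3; exact absurd (Finset.mem_univ _) h3
  have hμi : LinearIndependent k μ := by
    rw [Fintype.linearIndependent_iff]
    intro v hv i
    have h1 : Matrix.vecMul v (Matrix.of fun i j : I => pt (i, β j)) = 0 := by
      funext j
      have h2 := congrArg (fun f : MvPolynomial σ k →ₗ[k] k => f (monomial (bx (β j)) 1)) hv
      simp only [LinearMap.sum_apply, LinearMap.smul_apply, smul_eq_mul, hμ3,
        LinearMap.zero_apply] at h2
      rw [Matrix.vecMul, dotProduct, Pi.zero_apply]
      exact h2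
    exact congrFun (Matrix.eq_zero_of_vecMul_eq_zero hne h1) i
  obtain ⟨T, hTg, hne2⟩ := h μ hμi hμ1 hμ2
  apply hne2
  rw [hι] at hTg
  refine val_gen F w _ (fun T₀ hT₀ => ?_) T hTg
  rw [← hι]
  simp only [hμ]
  exact hT T₀ hT₀

end Pool.Agent.D0H58.HS
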