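import Pool.Agent.D0H58.HS.Loc

/-! Dense bijectivity of Frobenius on the top cohomology of hypersurfaces. -/

set_option autoImplicit false
set_option linter.unusedSectionVars false

universe u

open MvPolynomial

namespace Pool.Agent.D0H58.HS

open Pool.Agent.D0H58.OR (frac_closure stable_ring restrictD exists_hom push_quot charP_of_zero
  diff_prime)

lemma weight_lt {m : ℕ} (hm : 2 ≤ m) (q : Fin m → ℕ) (hq : ∀ s, 1 ≤ q s) (s : Fin m) :
    q s < ∑ s, q s := by
  classical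
  rw [← Finset.add_sum_erase _ _ (Finset.mem_univ s)]
  have h1 : ∃ t, t ∈ Finset.univ.erase s := by
    have h2 : 0 < (Finset.univ.erase s).card := by
      rw [Finset.card_erase_of_mem (Finset.mem_univ s), Finset.card_univ, Fintype.card_fin]
      omega
    exact Finset.card_pos.1 h2
  obtain ⟨t, ht⟩ := h1
  have h3 : q t ≤ ∑ x ∈ Finset.univ.erase s, q x :=
    Finset.single_le_sum (fun _ _ => Nat.zero_le _) ht
  have := hq t
  omega

/-- Dense bijectivity of Frobenius. -/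
theorem main3 {k : Type u} {ι : Type*} [Field k] [IsAlgClosed k] [CharZero k] [Fintype ι]
    (m : ι → ℕ) (hm : ∀ i, 2 ≤ m i) (q : ∀ i, Fin (m i) → ℕ) (hq : ∀ i s, 1 ≤ q i s) (d : ι → ℕ)
    (hd : ∀ i, 1 ≤ d i) (F : ∀ i, MvPolynomial (Fin (m i)) k)
    (hF : ∀ i, IsWeightedHomogeneous (q i) (F i) (d i))
    (hs : ∀ i, ∀ x : Fin (m i) → k, (∀ s, eval x (pderiv s (F i)) = 0) → x = 0)
    (h : ∀ i, Big (q i) (d i) (F i) (hexp (q := q i) (d := d i)))
    (A : Subalgebra ℤ k) (hA : A.FG) (FA : ∀ i, MvPolynomial (Fin (m i)) A)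
    (hFA : ∀ i, map (algebraMap A k) (FA i) = F i) (c : A) (hc : c ≠ 0) :
    ∃ N : ℕ, ∀ p : ℕ, N ≤ p → p.Prime → ∃ M : Ideal A, M.IsMaximal ∧ (p : A) ∈ M ∧ c ∉ M ∧
      ∀ i, (HW (q i) (d i) p (map (Ideal.Quotient.mk M) (FA i))).det ≠ 0 := by
  classical
  obtain ⟨T, hTA⟩ := hA
  obtain ⟨G, hG1, hG2⟩ := frac_closure T
  have hcharE : CharZero (Subfield.closure (T : Set k)) :=
    RingHom.charZero (Subfield.closure (T : Set k)).subtype
  -- elements of `A`
  have hAl : ∀ x ∈ A, ∃ y : Subfield.closure (T : Set k), y ∈ Algebra.adjoin ℤ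
      (G : Set (Subfield.closure (T : Set k))) ∧ (y : k) = x := by
    intro x hx
    rw [← hTA] at hx
    induction hx using Algebra.adjoin_induction with
    | mem x hx =>
      obtain ⟨y, hy, hyx⟩ := hG1 x hx
      exact ⟨y, Algebra.subset_adjoin hy, hyx⟩
    | algebraMap z =>
      refine ⟨(z : Subfield.closure (T : Set k)), ?_, by simp⟩
      simp
    | add x y _ _ hx hy =>
      obtain ⟨x', h1, h2⟩ := hx
      obtain ⟨y', h3, h4⟩ := hy
      exact ⟨x' + y', Subalgebra.add_mem _ h1 h3, by push_cast; rw [h2, h4]⟩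
    | mul x y _ _ hx hy =>
      obtain ⟨x', h1, h2⟩ := hx
      obtain ⟨y', h3, h4⟩ := hy
      exact ⟨x' * y', Subalgebra.mul_mem _ h1 h3, by push_cast; rw [h2, h4]⟩
  obtain ⟨iE, hiE⟩ := exists_hom (algebraMap A k) (algebraMap (Subfield.closure (T : Set k)) k)
    (algebraMap (Subfield.closure (T : Set k)) k).injective (fun x => by
      obtain ⟨y, hy1, hy2⟩ := hAl x x.2
      exact ⟨y, hy2⟩)
  have hiE' : (algebraMap (Subfield.closure (T : Set k)) k).comp iE = algebraMap A k :=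
    RingHom.ext hiE
  obtain ⟨cE, hcE1, hcE2⟩ := hAl c c.2
  have hcE0 : cE ≠ 0 := by
    rintro rfl
    apply hc
    apply Subtype.ext
    rw [← hcE2]
    simp
  -- the local statements
  have hloc : ∀ i, Loc (q i) (d i) (map iE (FA i)) := by
    intro i
    have h1 : map (algebraMap (Subfield.closure (T : Set k)) k) (map iE (FA i)) = F i := by
      rw [map_map, hiE', hFA]
    refine loc_of_big (k := k) (q i) (weight_lt (hm i) (q i) (hq i)) ?_ (d i) (hd i) _ ?_ ?_ ?_
    · have h2 := weight_lt (hm i) (q i) (hq i) ⟨0, by have := hm i; omega⟩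
      omega
    · intro e he
      apply hF i
      rw [← h1, coeff_map]
      intro h0
      exact he ((algebraMap (Subfield.closure (T : Set k)) k).injective (by rw [h0, map_zero]))
    · intro x hx
      apply hs i x
      intro s
      rw [← h1, pderiv_map, eval_map, ← aeval_def]
      exact hx s
    · rw [h1]
      exact h i
  choose CC ΔΔ hCΔ using hloc
  -- the stable ring
  obtain ⟨Δ, hΔ⟩ : ∃ Δ : Finset (Derivation ℤ (Subfield.closure (T : Set k))
      (Subfield.closure (T : Set k))), Δ = Finset.univ.biUnion fun i => ΔΔ i := ⟨_, rfl⟩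
  obtain ⟨C0, hC0⟩ : ∃ C0 : Finset (Subfield.closure (T : Set k)), C0 = insert cE⁻¹
      (Finset.univ.biUnion fun i => CC i) := ⟨_, rfl⟩
  obtain ⟨R, hRfg, hRG, hRC, hRD⟩ := stable_ring G C0 hG2 Δ
  have hcR : cE⁻¹ ∈ R := hRC _ (by rw [hC0]; exact Finset.mem_insert_self _ _)
  have hCCR : ∀ i, ∀ x ∈ CC i, x ∈ R := by
    intro i x hx
    apply hRC
    rw [hC0]
    exact Finset.mem_insert_of_mem (Finset.mem_biUnion.2 ⟨i, Finset.mem_univ i, hx⟩)
  have hΔΔR : ∀ i, ∀ D ∈ ΔΔ i, D ∈ Δ := by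
    intro i D hD
    rw [hΔ]
    exact Finset.mem_biUnion.2 ⟨i, Finset.mem_univ i, hD⟩
  obtain ⟨iR, hiR⟩ : ∃ iR : R →+* Subfield.closure (T : Set k), ∀ x, iR x = x.1 :=
    ⟨R.val.toRingHom, fun _ => rfl⟩
  have hiRinj : Function.Injective iR := by
    intro x y h
    rw [hiR, hiR] at h
    exact Subtype.ext h
  have hres : ∀ D ∈ Δ, ∃ D' : Derivation ℤ R R, ∀ x, iR (D' x) = D (iR x) := fun D hD =>
    restrictD iR hiRinj D fun x => ⟨⟨D x.1, hRD D hD x.1 x.2⟩, by rw [hiR, hiR]⟩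
  obtain ⟨κ, hκ⟩ : ∃ κ : R →+* k, κ = (Subfield.closure (T : Set k)).subtype.comp iR := ⟨_, rfl⟩
  have hκx : ∀ x, κ x = ((x.1 : Subfield.closure (T : Set k)) : k) := by
    intro x
    rw [hκ, RingHom.comp_apply, hiR]
    rfl
  have hκinj : Function.Injective κ := by
    rw [hκ]
    exact (Subtype.val_injective (p := fun x => x ∈ Subfield.closure (T : Set k))).comp hiRinj
  have hchar : CharZero R := RingHom.charZero κ
  have hft : Algebra.FiniteType ℤ R := (Subalgebra.fg_iff_finiteType _).mp hRfg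
  -- the map from `A`
  have hRadj : Algebra.adjoin ℤ (G : Set (Subfield.closure (T : Set k))) ≤ R :=
    Algebra.adjoin_le fun x hx => hRG x hx
  obtain ⟨iA, hiA⟩ := exists_hom (algebraMap A k) κ hκinj (fun x => by
    obtain ⟨y, hy1, hy2⟩ := hAl x x.2
    exact ⟨⟨y, hRadj hy1⟩, by rw [hκx]; exact hy2⟩)
  have hiRA : iR.comp iA = iE := by
    apply RingHom.ext
    intro x
    apply (algebraMap (Subfield.closure (T : Set k)) k).injective
    rw [hiE, ← hiA, RingHom.comp_apply, hκ, RingHom.comp_apply]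
    rfl
  have hfA : Algebra.FiniteType ℤ A := (Subalgebra.fg_iff_finiteType _).mp ⟨T, hTA⟩
  have hJ : IsJacobsonRing A := by
    have := Pool.Agent.Y162.HW.jac_int
    exact isJacobsonRing_of_finiteType (A := ℤ)
  have hcc : iA c * ⟨cE⁻¹, hcR⟩ = 1 := by
    apply hκinj
    rw [map_mul, map_one, hiA, hκx]
    change (c : k) * ((cE⁻¹ : Subfield.closure (T : Set k)) : k) = 1
    rw [← hcE2, ← Subfield.coe_mul, mul_inv_cancel₀ hcE0]
    rfl
  -- the primes
  obtain ⟨M1, hM1⟩ := diff_prime R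
  refine ⟨M1, fun p hp hpp => ?_⟩
  obtain ⟨P, hP, hpP, hDP⟩ := hM1 p hp hpp
  have hdom : IsDomain (R ⧸ P) := Ideal.Quotient.isDomain P
  have hcharP : CharP (R ⧸ P) p := charP_of_zero p hpp (by
    have := Ideal.Quotient.eq_zero_iff_mem.2 hpP
    rwa [map_natCast] at this)
  have hfact : Fact p.Prime := ⟨hpp⟩
  obtain ⟨M0, hM0⟩ : ∃ M0 : Ideal A, M0 = P.comap iA := ⟨_, rfl⟩
  have hM0p : M0.IsPrime := by rw [hM0]; exact Ideal.comap_isPrime iA P
  have hdet : ∀ i, (HW (q i) (d i) p (FA i)).det ∉ M0 := by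
    intro i
    rw [hM0, Ideal.mem_comap, HW_map]
    intro hmem
    refine hCΔ i R (R ⧸ P) iR (Ideal.Quotient.mk P) p (map iA (FA i)) hiRinj
      (fun x hx => ⟨⟨x, hCCR i x hx⟩, hiR _⟩) (fun D hD => hres D (hΔΔR i D hD))
      (fun D => ?_) ?_ ?_
    · apply push_quot _ Ideal.Quotient.mk_surjective
      intro x hx
      rw [Ideal.Quotient.eq_zero_iff_mem] at hx ⊢
      exact hDP D x hx
    · rw [map_map, hiRA]
    · rw [← HW_map]
      exact Ideal.Quotient.eq_zero_iff_mem.2 hmem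
  have hprod : c * ∏ i, (HW (q i) (d i) p (FA i)).det ∉ M0 := by
    intro hmem
    rcases hM0p.mem_or_mem hmem with h1 | h1
    · rw [hM0, Ideal.mem_comap] at h1
      apply hP.ne_top
      rw [Ideal.eq_top_iff_one, ← hcc]
      exact P.mul_mem_right _ h1
    · obtain ⟨i, -, hi⟩ := (hM0p.prod_mem_iff).1 h1
      exact hdet i hi
  have hjac : M0.jacobson = M0 := isJacobsonRing_iff_prime_eq.mp inferInstance M0 hM0p
  rw [← hjac, Ideal.jacobson, Submodule.mem_sInf] at hprod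
  push Not at hprod
  obtain ⟨M, ⟨hM0M, hM⟩, hMa⟩ := hprod
  refine ⟨M, hM, hM0M ?_, fun h1 => hMa (Ideal.mul_mem_right _ M h1), fun i => ?_⟩
  · rw [hM0, Ideal.mem_comap, map_natCast]
    exact hpP
  · rw [← HW_map]
    intro h1
    refine hMa (Ideal.mul_mem_left M _ ?_)
    exact Ideal.mem_of_dvd M (Finset.dvd_prod_of_mem
      (fun i => (HW (q i) (d i) p (FA i)).det) (Finset.mem_univ i))
      (Ideal.Quotient.eq_zero_iff_mem.1 h1)

end Pool.Agent.D0H58.HS
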