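import Pool.Agent.D0H58.HS.Red
import Pool.Agent.D0H58.OR.Cert

/-! The tensors which are generated by the product of the holomorphic forms under the Gauss-Manin
connection. -/

set_option autoImplicit false
set_option linter.unusedSectionVars false

universe u

open MvPolynomial

namespace Pool.Agent.D0H58.HS

open Pool.Agent.D0H58.OR (push push_apply)

/-- The tensors generated by the product of the holomorphic forms. -/
inductive Gen {k I σ : Type*} [Field k] [Fintype I] [DecidableEq I] (F : MvPolynomial σ k)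
    (w : I → σ →₀ ℕ) : MvPolynomial (I × σ) k → Prop
  | vol : Gen F w (vol k w)
  | add (T T' : MvPolynomial (I × σ) k) : Gen F w T → Gen F w T' → Gen F w (T + T')
  | smul (c : k) (T : MvPolynomial (I × σ) k) : Gen F w T → Gen F w (C c * T)
  | nab (δ : Derivation ℤ k k) (T : MvPolynomial (I × σ) k) : Gen F w T → Gen F w (nab δ F T)

lemma Dm_compat {σ A B : Type*} [CommRing A] [CommRing B] (φ : A →+* B) (D : Derivation ℤ A A)
    (D' : Derivation ℤ B B) (h : ∀ x, φ (D x) = D' (φ x)) (P : MvPolynomial σ A) :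
    map φ (Dm D P) = Dm D' (map φ P) := by
  ext m
  rw [coeff_map, coeff_Dm, coeff_Dm, coeff_map, h]

lemma vol_map {I σ A B : Type*} [CommRing A] [CommRing B] [Fintype I] [DecidableEq I] (φ : A →+* B)
    (w : I → σ →₀ ℕ) : map φ (vol A w) = vol B w := by
  unfold vol
  rw [RingHom.map_det]
  congr 1
  ext1 i j
  rw [RingHom.mapMatrix_apply, Matrix.map_apply, Matrix.of_apply, Matrix.of_apply, map_rename,
    map_monomial, map_one]

lemma nab_compat {I σ A B : Type*} [CommRing A] [CommRing B] [Fintype I] (φ : A →+* B)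
    (D : Derivation ℤ A A) (D' : Derivation ℤ B B) (h : ∀ x, φ (D x) = D' (φ x))
    (F : MvPolynomial σ A) (T : MvPolynomial (I × σ) A) :
    map φ (nab D F T) = nab D' (map φ F) (map φ T) := by
  unfold nab
  rw [map_add, map_mul, map_sum, Dm_compat φ D D' h]
  congr 2
  refine Finset.sum_congr rfl fun i _ => ?_
  rw [map_rename, Dm_compat φ D D' h]

section span

variable {E k I σ : Type*} [Field E] [Field k] [Algebra E k] [Fintype I] [DecidableEq I]

/-- expansion of a derivation along a basis of `k` over `E` -/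
lemma Dm_expand {τ : Type*} (b : Module.Basis (Module.Basis.ofVectorSpaceIndex E k) E k)
    (δ : Derivation ℤ k k) (P : MvPolynomial τ E) (J : Finset (Module.Basis.ofVectorSpaceIndex E k))
    (hJ : ∀ m ∈ P.support, (b.repr (δ (algebraMap E k (coeff m P)))).support ⊆ J) :
    Dm δ (map (algebraMap E k) P) =
      ∑ j ∈ J, C (b j) * map (algebraMap E k) (Dm (push δ (b.coord j)) P) := by
  ext m
  rw [coeff_Dm, coeff_map, coeff_sum]
  simp only [coeff_C_mul, coeff_map, coeff_Dm]
  by_cases hm : m ∈ P.support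
  · have h2 := b.linearCombination_repr (δ (algebraMap E k (coeff m P)))
    rw [Finsupp.linearCombination_apply, Finsupp.sum_of_support_subset _ (hJ m hm)] at h2
    · conv_lhs => rw [← h2]
      refine Finset.sum_congr rfl fun j _ => ?_
      rw [Algebra.smul_def, mul_comm]
      rfl
    · intro j _
      rw [zero_smul]
  · rw [notMem_support_iff.1 hm]
    simp

/-- The tensors over `k` are combinations of the tensors over `E`. -/
lemma gen_span (F : MvPolynomial σ E) (w : I → σ →₀ ℕ) (T : MvPolynomial (I × σ) k)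
    (hT : Gen (map (algebraMap E k) F) w T) :
    T ∈ Submodule.span k {T' | ∃ T₀ : MvPolynomial (I × σ) E, Gen F w T₀ ∧
      T' = map (algebraMap E k) T₀} := by
  classical
  obtain ⟨W, hW⟩ : ∃ W : Submodule k (MvPolynomial (I × σ) k),
    W = Submodule.span k {T' | ∃ T₀ : MvPolynomial (I × σ) E, Gen F w T₀ ∧
      T' = map (algebraMap E k) T₀} := ⟨_, rfl⟩
  rw [← hW]
  have hmem : ∀ T₀ : MvPolynomial (I × σ) E, Gen F w T₀ → map (algebraMap E k) T₀ ∈ W := by
    intro T₀ h
    rw [hW]
    exact Submodule.subset_span ⟨T₀, h, rfl⟩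
  have hsm : ∀ (c : k) (T : MvPolynomial (I × σ) k), T ∈ W → C c * T ∈ W := by
    intro c T h
    rw [← smul_eq_C_mul]
    exact W.smul_mem _ h
  have hgen : ∀ (δ : Derivation ℤ k k) (T₀ : MvPolynomial (I × σ) E), Gen F w T₀ →
      nab δ (map (algebraMap E k) F) (map (algebraMap E k) T₀) ∈ W := by
    intro δ T₀ h
    let b := Module.Basis.ofVectorSpace E k
    obtain ⟨J, hJ⟩ : ∃ J : Finset (Module.Basis.ofVectorSpaceIndex E k), J =
      (T₀.support.biUnion fun m => (b.repr (δ (algebraMap E k (coeff m T₀)))).support) ∪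
        (F.support.biUnion fun m => (b.repr (δ (algebraMap E k (coeff m F)))).support) := ⟨_, rfl⟩
    have e1 := Dm_expand b δ T₀ J (fun m hm => by
      rw [hJ]
      exact (Finset.subset_biUnion_of_mem
        (fun m => (b.repr (δ (algebraMap E k (coeff m T₀)))).support) hm).trans
        Finset.subset_union_left)
    have e2 := Dm_expand b δ F J (fun m hm => by
      rw [hJ]
      exact (Finset.subset_biUnion_of_mem
        (fun m => (b.repr (δ (algebraMap E k (coeff m F)))).support) hm).trans
        Finset.subset_union_right)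
    have e3 : nab δ (map (algebraMap E k) F) (map (algebraMap E k) T₀) =
        ∑ j ∈ J, C (b j) * map (algebraMap E k) (nab (push δ (b.coord j)) F T₀) := by
      unfold nab
      rw [e1, e2]
      simp only [map_sum, map_mul, map_add, map_rename, rename_C]
      rw [Finset.sum_comm, Finset.sum_mul, ← Finset.sum_add_distrib]
      refine Finset.sum_congr rfl fun j _ => ?_
      rw [← Finset.mul_sum]
      ring
    rw [e3]
    exact Submodule.sum_mem _ fun j _ => hsm _ _ (hmem _ (Gen.nab _ _ h))
  have hstab : ∀ (δ : Derivation ℤ k k), ∀ x ∈ W, nab δ (map (algebraMap E k) F) x ∈ W := by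
    intro δ x hx
    rw [hW] at hx
    induction hx using Submodule.span_induction with
    | mem x hx =>
      obtain ⟨T₀, h, rfl⟩ := hx
      exact hgen δ T₀ h
    | zero => rw [nab_zero]; exact W.zero_mem
    | add x y _ _ hx hy => rw [nab_add]; exact W.add_mem hx hy
    | smul c x hx' hx =>
      rw [smul_eq_C_mul, nab_C_mul]
      exact W.add_mem (hsm _ _ (hW ▸ hx')) (hsm _ _ hx)
  induction hT with
  | vol =>
    have := hmem _ Gen.vol
    rwa [vol_map] at this
  | add T T' _ _ h1 h2 => exact W.add_mem h1 h2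
  | smul c T _ h => exact hsm _ _ h
  | nab δ T _ h => exact hstab δ T h

/-- a family of functionals over `k` which kills the tensors over `E` kills the tensors over `k` -/
lemma val_gen (F : MvPolynomial σ E) (w : I → σ →₀ ℕ) (μ : I → (σ →₀ ℕ) → k)
    (h : ∀ T₀ : MvPolynomial (I × σ) E, Gen F w T₀ → val μ (map (algebraMap E k) T₀) = 0)
    (T : MvPolynomial (I × σ) k) (hT : Gen (map (algebraMap E k) F) w T) : val μ T = 0 := by
  have h1 := gen_span F w T hT
  clear hT
  induction h1 using Submodule.span_induction with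
  | mem x hx =>
    obtain ⟨T₀, h2, rfl⟩ := hx
    exact h T₀ h2
  | zero => exact val_zero μ
  | add x y _ _ hx hy => rw [val_add, hx, hy, add_zero]
  | smul c x _ hx => rw [smul_eq_C_mul, val_C_mul, hx, mul_zero]

end span

/-- the data at a differential prime ideal -/
structure Spec {E : Type u} {I σ : Type*} [Field E] [Fintype I] [DecidableEq I] (F : MvPolynomial σ E)
    (w : I → σ →₀ ℕ) (R S : Type u) [CommRing R] [CommRing S] where
  /-- the inclusion -/
  iR : R →+* E
  hiR : Function.Injective iR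
  /-- the reduction -/
  π : R →+* S
  /-- the horizontal functionals -/
  l : I → MvPolynomial σ S →ₗ[S] S
  /-- the polynomial -/
  FR : MvPolynomial σ R
  hFR : map iR FR = F
  hvol : val (fun i m => l i (monomial m 1)) (vol S w) = 0

/-- the condition on constants and derivations -/
def Spec.Ok {E : Type u} {I σ : Type*} [Field E] [Fintype I] [DecidableEq I] {F : MvPolynomial σ E}
    {w : I → σ →₀ ℕ} {R S : Type u} [CommRing R] [CommRing S] (X : Spec F w R S)
    (C : Finset E) (Δ : Finset (Derivation ℤ E E)) : Prop :=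
  (∀ c ∈ C, ∃ x, X.iR x = c) ∧ ∀ D ∈ Δ, ∃ (DR : Derivation ℤ R R) (DS : Derivation ℤ S S),
    (∀ x, X.iR (DR x) = D (X.iR x)) ∧ (∀ x, X.π (DR x) = DS (X.π x)) ∧
    ∀ i P, DS (X.l i P) = X.l i (Dm DS P + Dm DS (map X.π X.FR) * P)

lemma Spec.Ok.mono {E : Type u} {I σ : Type*} [Field E] [Fintype I] [DecidableEq I] {F : MvPolynomial σ E}
    {w : I → σ →₀ ℕ} {R S : Type u} [CommRing R] [CommRing S] {X : Spec F w R S}
    {C C' : Finset E} {Δ Δ' : Finset (Derivation ℤ E E)}
    (h : X.Ok C' Δ') (hC : C ⊆ C') (hΔ : Δ ⊆ Δ') : X.Ok C Δ :=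
  ⟨fun c hc => h.1 c (hC hc), fun D hD => h.2 D (hΔ hD)⟩

/-- all generated tensors are killed by the horizontal functionals -/
lemma gen_good {E : Type u} {I σ : Type*} [Field E] [Fintype I] [DecidableEq I] (F : MvPolynomial σ E)
    (w : I → σ →₀ ℕ) (T : MvPolynomial (I × σ) E)
    (hT : Gen F w T) : ∃ (C : Finset E) (Δ : Finset (Derivation ℤ E E)),
      ∀ (R S : Type u) [CommRing R] [CommRing S] (X : Spec F w R S), X.Ok C Δ →
        ∃ TR : MvPolynomial (I × σ) R, map X.iR TR = T ∧
          val (fun i m => X.l i (monomial m 1)) (map X.π TR) = 0 := by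
  classical
  induction hT with
  | vol =>
    refine ⟨∅, ∅, fun R S _ _ X _ => ⟨vol R w, vol_map _ _, ?_⟩⟩
    rw [vol_map, X.hvol]
  | add T T' _ _ h1 h2 =>
    obtain ⟨C, Δ, h1⟩ := h1
    obtain ⟨C', Δ', h2⟩ := h2
    refine ⟨C ∪ C', Δ ∪ Δ', fun R S _ _ X hX => ?_⟩
    obtain ⟨T1, h3, h4⟩ := h1 R S X (hX.mono Finset.subset_union_left Finset.subset_union_left)
    obtain ⟨T2, h5, h6⟩ := h2 R S X (hX.mono Finset.subset_union_right Finset.subset_union_right)
    exact ⟨T1 + T2, by rw [map_add, h3, h5], by rw [map_add, val_add, h4, h6, add_zero]⟩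
  | smul c T _ h =>
    obtain ⟨C0, Δ, h⟩ := h
    refine ⟨insert c C0, Δ, fun R S _ _ X hX => ?_⟩
    obtain ⟨T1, h3, h4⟩ := h R S X (hX.mono (Finset.subset_insert _ _) subset_rfl)
    obtain ⟨c', hc'⟩ := hX.1 c (Finset.mem_insert_self _ _)
    exact ⟨MvPolynomial.C c' * T1, by rw [map_mul, map_C, h3, hc'],
      by rw [map_mul, map_C, val_C_mul, h4, mul_zero]⟩
  | nab δ T _ h =>
    obtain ⟨C, Δ, h⟩ := h
    refine ⟨C, insert δ Δ, fun R S _ _ X hX => ?_⟩
    obtain ⟨T1, h3, h4⟩ := h R S X (hX.mono subset_rfl (Finset.subset_insert _ _))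
    obtain ⟨DR, DS, h5, h6, h7⟩ := hX.2 δ (Finset.mem_insert_self _ _)
    refine ⟨nab DR X.FR T1, ?_, ?_⟩
    · rw [nab_compat X.iR DR δ h5, X.hFR, h3]
    · rw [nab_compat X.π DR DS h6, ← val_deriv DS (map X.π X.FR) X.l h7, h4, map_zero]

end Pool.Agent.D0H58.HS
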