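import Pool.Agent.D0H58.HS.Big

/-! The local statement at differential prime ideals. -/

set_option autoImplicit false
set_option linter.unusedSectionVars false

universe u

open MvPolynomial

namespace Pool.Agent.D0H58.HS

section field

variable {F : Type*} [Field F]

/-- if all the minors vanish, then the rows are linearly dependent -/
lemma exists_dep' {I B : Type*} [Fintype I] [DecidableEq I] [Fintype B] (l : I → B → F)
    (h : ∀ s : I → B, (Matrix.of fun i j : I => l i (s j)).det = 0) :
    ∃ v : I → F, v ≠ 0 ∧ ∀ s, ∑ j, v j * l j s = 0 := by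
  classical
  by_contra hcon
  push Not at hcon
  -- the columns span
  obtain ⟨c, hc⟩ : ∃ c : B → I → F, ∀ s i, c s i = l i s := ⟨fun s i => l i s, fun _ _ => rfl⟩
  have hspan : Submodule.span F (Set.range c) = ⊤ := by
    by_contra hne
    obtain ⟨φ, hφ, hφ2⟩ := Submodule.exists_le_ker_of_lt_top _ (lt_top_iff_ne_top.2 hne)
    have h1 : ∀ x : I → F, φ x = ∑ j, φ (Pi.single j 1) * x j := by
      intro x
      conv_lhs => rw [← Finset.univ_sum_single x]
      rw [map_sum]
      refine Finset.sum_congr rfl fun j _ => ?_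
      have : (Pi.single j (x j) : I → F) = x j • Pi.single j 1 := by
        rw [← Pi.single_smul]; simp
      rw [this, map_smul, smul_eq_mul, mul_comm]
    obtain ⟨s, hs⟩ := hcon (fun j => φ (Pi.single j 1)) (by
      intro h0
      apply hφ
      apply LinearMap.ext
      intro x
      rw [h1 x, LinearMap.zero_apply]
      exact Finset.sum_eq_zero fun j _ => by rw [congrFun h0 j, Pi.zero_apply, zero_mul])
    apply hs
    have h2 : φ (c s) = 0 := hφ2 (Submodule.subset_span ⟨s, rfl⟩)
    rw [h1] at h2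
    simpa [hc] using h2
  obtain ⟨κ, r, hr, hsp, hli⟩ := exists_linearIndependent' F c
  rw [hspan] at hsp
  have hfin : Finite κ := hli.finite
  have hfin' : Fintype κ := Fintype.ofFinite κ
  have hcard : Fintype.card κ = Fintype.card I := by
    have := Module.Basis.mk hli (hsp ▸ le_rfl)
    have h3 := Module.finrank_eq_card_basis this
    rw [Module.finrank_fintype_fun_eq_card] at h3
    exact h3.symm
  let e : I ≃ κ := (Fintype.equivOfCardEq hcard).symm
  have h4 := h fun j => r (e j)
  have h5 : LinearIndependent F fun j : I => c (r (e j)) := hli.comp e e.injective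
  have h6 := (Matrix.linearIndependent_rows_iff_isUnit (A := Matrix.of fun j i : I => l i (r (e j)))).1
    (by
      have : (Matrix.of fun j i : I => l i (r (e j))).row = fun j : I => c (r (e j)) := by
        funext j i
        rw [hc]
        rfl
      rw [this]
      exact h5)
  rw [Matrix.isUnit_iff_isUnit_det] at h6
  apply h6.ne_zero
  rw [← h4, ← Matrix.det_transpose]
  rfl

end field

section exps

variable {σ : Type*} [Fintype σ]

/-- the exponents of the holomorphic forms -/
abbrev Hol (q : σ → ℕ) (d : ℕ) : Type _ := {w : σ → Fin d // ∑ s, q s * ((w s : ℕ) + 1) = d}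

variable {q : σ → ℕ} {d : ℕ}

/-- the exponents of a holomorphic form -/
noncomputable def hexp (w : Hol q d) : σ →₀ ℕ := Finsupp.equivFunOnFinite.symm fun s => (w.1 s : ℕ)

/-- the exponents which are congruent to `-1` -/
noncomputable def texp (p : ℕ) (w : Hol q d) : σ →₀ ℕ :=
  Finsupp.equivFunOnFinite.symm fun s => p * ((w.1 s : ℕ) + 1) - 1

lemma hexp_apply (w : Hol q d) (s : σ) : hexp w s = w.1 s := rfl

lemma texp_apply (p : ℕ) (w : Hol q d) (s : σ) : texp p w s = p * ((w.1 s : ℕ) + 1) - 1 := rfl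

lemma weight_eq (m : σ →₀ ℕ) : Finsupp.weight q m = ∑ s, m s * q s := by
  rw [Finsupp.weight_apply, Finsupp.sum_fintype _ _ (by simp)]
  simp only [smul_eq_mul]

lemma weight_hexp (w : Hol q d) : Finsupp.weight q (hexp w) + ∑ s, q s = d := by
  rw [weight_eq, ← Finset.sum_add_distrib]
  conv_rhs => rw [← w.2]
  refine Finset.sum_congr rfl fun s _ => ?_
  rw [hexp_apply]; ring

lemma weight_texp (p : ℕ) (hp : 1 ≤ p) (w : Hol q d) :
    Finsupp.weight q (texp p w) + ∑ s, q s = p * d := by
  rw [weight_eq, ← Finset.sum_add_distrib]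
  conv_rhs => rw [← w.2, Finset.mul_sum]
  refine Finset.sum_congr rfl fun s _ => ?_
  rw [texp_apply]
  have h1 : 1 ≤ p * ((w.1 s : ℕ) + 1) := Nat.mul_pos hp (by omega)
  obtain ⟨r, hr⟩ : ∃ r, p * ((w.1 s : ℕ) + 1) = r + 1 := ⟨p * ((w.1 s : ℕ) + 1) - 1, by omega⟩
  have h2 : p * (q s * ((w.1 s : ℕ) + 1)) = q s * (p * ((w.1 s : ℕ) + 1)) := by ring
  rw [h2, hr, Nat.add_sub_cancel]
  ring

lemma top_texp (p : ℕ) (hp : 1 ≤ p) (w : Hol q d) : Top p (texp p w) := by
  intro s
  rw [texp_apply]
  have h1 : 1 ≤ p * ((w.1 s : ℕ) + 1) := Nat.mul_pos hp (by omega)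
  rw [Nat.sub_add_cancel h1]
  exact dvd_mul_right _ _

lemma texp_injective (p : ℕ) (hp : 1 ≤ p) : Function.Injective (texp (q := q) (d := d) p) := by
  intro w w' h
  apply Subtype.ext
  funext s
  apply Fin.ext
  have h1 := DFunLike.congr_fun h s
  rw [texp_apply, texp_apply] at h1
  have h2 : 1 ≤ p * ((w.1 s : ℕ) + 1) := Nat.mul_pos hp (by omega)
  have h3 : 1 ≤ p * ((w'.1 s : ℕ) + 1) := Nat.mul_pos hp (by omega)
  have h4 : p * ((w.1 s : ℕ) + 1) = p * ((w'.1 s : ℕ) + 1) := by omega
  have h5 := Nat.eq_of_mul_eq_mul_left hp h4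
  omega

/-- the Hasse-Witt matrix -/
noncomputable def HW {A : Type*} [CommRing A] (q : σ → ℕ) (d p : ℕ) (F : MvPolynomial σ A) :
    Matrix (Hol q d) (Hol q d) A :=
  Matrix.of fun w w' => coeff (texp p w) (monomial (hexp w') 1 * F ^ (p - 1))

lemma HW_map {A B : Type*} [CommRing A] [CommRing B] (φ : A →+* B) (q : σ → ℕ) (d p : ℕ)
    (F : MvPolynomial σ A) [DecidableEq σ] : φ (HW q d p F).det = (HW q d p (map φ F)).det := by
  rw [RingHom.map_det]
  congr 1
  ext1 i j
  rw [RingHom.mapMatrix_apply, Matrix.map_apply, HW, HW, Matrix.of_apply, Matrix.of_apply,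
    ← coeff_map, map_mul, map_monomial, map_pow, map_one]

end exps

section lm

variable {σ A : Type*} [CommRing A]

lemma lm_map {B : Type*} [CommRing B] (φ : A →+* B) (p : ℕ) (F : MvPolynomial σ A) (e : σ →₀ ℕ)
    (P : MvPolynomial σ A) : φ (lm p F e P) = lm p (map φ F) e (map φ P) := by
  rw [lm_apply, lm_apply, ← coeff_map, map_mul]
  congr 2
  unfold Ep
  rw [map_sum]
  refine Finset.sum_congr rfl fun j _ => ?_
  rw [map_mul, map_C, map_pow]
  congr 2
  unfold ifac
  exact map_natCast φ _

/-- the functional vanishes at most monomials -/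
lemma lm_zero (q : σ → ℕ) (p : ℕ) (F : MvPolynomial σ A) (d : ℕ) (hF : IsWeightedHomogeneous q F d)
    (e m : σ →₀ ℕ) (h : ∀ j < p, Finsupp.weight q e ≠ Finsupp.weight q m + j * d) :
    lm p F e (monomial m 1) = 0 := by
  classical
  rw [lm_apply, Ep, Finset.mul_sum, coeff_sum]
  apply Finset.sum_eq_zero
  intro b hb
  rw [Finset.mem_range] at hb
  have h1 : monomial m 1 * (C (ifac A p b) * F ^ b) = C (ifac A p b) * (monomial m 1 * F ^ b) := by
    ring
  rw [h1, coeff_C_mul]
  have h2 : IsWeightedHomogeneous q (monomial m (1 : A) * F ^ b) (Finsupp.weight q m + b * d) := by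
    have := (isWeightedHomogeneous_monomial q m (1 : A) rfl).mul (hF.pow b)
    rwa [smul_eq_mul] at this
  rw [h2.coeff_eq_zero _ (h b hb), mul_zero]

end lm

/-- The determinant of the Hasse-Witt matrix does not vanish modulo differential prime ideals. -/
def Loc {E : Type u} {σ : Type*} [Field E] [Fintype σ] [DecidableEq σ] (q : σ → ℕ) (d : ℕ)
    (F : MvPolynomial σ E) : Prop :=
  ∃ (C : Finset E) (Δ : Finset (Derivation ℤ E E)), ∀ (R S : Type u) [CommRing R] [CommRing S]
    [IsDomain S] (iR : R →+* E) (π : R →+* S) (p : ℕ) [Fact p.Prime] [CharP S p]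
    (FR : MvPolynomial σ R), Function.Injective iR → (∀ c ∈ C, ∃ x, iR x = c) →
    (∀ D ∈ Δ, ∃ DR : Derivation ℤ R R, ∀ x, iR (DR x) = D (iR x)) →
    (∀ D : Derivation ℤ R R, ∃ DS : Derivation ℤ S S, ∀ x, DS (π x) = π (D x)) →
    map iR FR = F → (HW q d p (map π FR)).det ≠ 0

lemma jac_lift {R E σ : Type*} [CommRing R] [Field E] [Fintype σ] [DecidableEq σ] (iR : R →+* E)
    (hiR : Function.Injective iR) (q : σ → ℕ) (d N : ℕ) (F : MvPolynomial σ E)
    (FR : MvPolynomial σ R) (hF : map iR FR = F) (G : σ → σ → MvPolynomial σ E)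
    (h1 : ∀ s, X s ^ N = ∑ i, G s i * pderiv i F)
    (h2 : ∀ s i, ∀ m ∈ (G s i).support, Finsupp.weight q m + d = N * q s + q i)
    (hC : ∀ s i m, ∃ y, iR y = coeff m (G s i)) : Jac q FR d N := by
  intro s
  choose GR hGR using fun i => Pool.Agent.D0H58.OR.lift_poly iR (G s i) (hC s i)
  refine ⟨GR, ?_, fun i m hm => h2 s i m ?_⟩
  · apply map_injective iR hiR
    rw [map_pow, map_X, h1, map_sum]
    refine Finset.sum_congr rfl fun i _ => ?_
    rw [map_mul, hGR, ← pderiv_map, hF]
  · rw [← hGR, support_map_of_injective _ hiR]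
    exact hm

lemma loc_of_big {k E : Type u} {σ : Type*} [Field k] [IsAlgClosed k] [Field E] [Algebra E k]
    [Fintype σ] [DecidableEq σ] (q : σ → ℕ) (hσ : ∀ s, q s < ∑ s, q s) (hσ0 : 0 < ∑ s, q s)
    (d : ℕ) (hd : 1 ≤ d) (F : MvPolynomial σ E) (hF : IsWeightedHomogeneous q F d)
    (hs : ∀ x : σ → k, (∀ s, aeval x (pderiv s F) = 0) → x = 0)
    (h : Big q d (map (algebraMap E k) F) (hexp (q := q) (d := d))) : Loc q d F := by
  classical
  obtain ⟨N, hJ⟩ := jac_of_smooth q F d hF hs
  choose ρ hρ1 hρ using fun m => red (q := q) hd hJ m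
  have hcert := fun β : Hol q d → σ → Fin N => cert_of_big q d N F (hexp (q := q) (d := d)) ρ hρ1 hρ h β
  choose e he using hcert
  choose C0 Δ htr using fun β : Hol q d → σ → Fin N => transfer q d N F _ ρ hρ _ (he β)
  choose G hG1 hG2 using hJ
  refine ⟨(Finset.univ.biUnion fun β => C0 β) ∪ Finset.univ.biUnion fun s => Finset.univ.biUnion
    fun i => (G s i).support.image fun m => coeff m (G s i), Finset.univ.biUnion fun β => Δ β, ?_⟩
  intro R S _ _ _ iR π p _ _ FR hiR hC hΔ hπ hFR hdet
  have hp1 : 1 ≤ p := (Fact.out : p.Prime).one_le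
  have hFRh : IsWeightedHomogeneous q FR d := by
    intro m hm
    apply hF
    rw [← hFR, coeff_map]
    intro h0
    exact hm (hiR (by rw [h0, map_zero]))
  have hFS : IsWeightedHomogeneous q (map π FR) d := by
    intro m hm
    apply hFRh
    intro h0
    apply hm
    rw [coeff_map, h0, map_zero]
  have hpd : Fact p.Prime := inferInstance
  have hwt : ∀ i : Hol q d, Finsupp.weight q (texp p i) < p * d := by
    intro i
    have := weight_texp p hp1 i
    omega
  have hJR : Jac q FR d N := jac_lift iR hiR q d N F FR hFR G hG1 hG2 fun s i =>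
    coeff_lift iR (G s i) fun c hc => hC c (Finset.mem_union_right _ (Finset.mem_biUnion.2
      ⟨s, Finset.mem_univ s, Finset.mem_biUnion.2 ⟨i, Finset.mem_univ i, hc⟩⟩))
  -- the functionals
  have hvol : val (fun (i : Hol q d) m => lm p (map π FR) (texp p i) (monomial m 1))
      (vol S (hexp (q := q) (d := d))) = 0 := by
    rw [val_vol]
    have h1 : (Matrix.of fun i j : Hol q d => lm p (map π FR) (texp p i) (monomial (hexp j) 1)) =
        ifac S p (p - 1) • HW q d p (map π FR) := by
      ext i j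
      rw [Matrix.of_apply, Matrix.smul_apply, smul_eq_mul, HW, Matrix.of_apply]
      apply lm_monomial p q (map π FR) d hd hFS _ _ (p - 1) (by omega)
      have h2 := weight_texp p hp1 i
      have h3 := weight_hexp j
      obtain ⟨r, hr⟩ : ∃ r, p = r + 1 := ⟨p - 1, by omega⟩
      rw [hr, Nat.add_sub_cancel]
      rw [hr, add_mul, one_mul] at h2
      omega
    rw [h1, Matrix.det_smul, hdet, mul_zero]
  obtain ⟨Y, hY⟩ : ∃ Y : Spec F (hexp (q := q) (d := d)) R S, Y =
    { iR := iR
      hiR := hiR
      π := π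
      l := fun i => lm p (map π FR) (texp p i)
      FR := FR
      hFR := hFR
      hvol := hvol } := ⟨_, rfl⟩
  have hOk : Y.Ok ((Finset.univ.biUnion fun β => C0 β) ∪ Finset.univ.biUnion fun s =>
      Finset.univ.biUnion fun i => (G s i).support.image fun m => coeff m (G s i))
      (Finset.univ.biUnion fun β => Δ β) := by
    rw [hY]
    refine ⟨hC, fun D hD => ?_⟩
    obtain ⟨DR, hDR⟩ := hΔ D hD
    obtain ⟨DS, hDS⟩ := hπ DR
    exact ⟨DR, DS, hDR, fun x => (hDS x).symm, fun i P =>
      lm_deriv p q DS (map π FR) d hFS (texp p i) (hwt i) P⟩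
  let K := FractionRing S
  let φ : S →+* K := algebraMap S K
  have hφ : Function.Injective φ := IsFractionRing.injective S K
  have hK : CharP K p := charP_of_injective_ringHom hφ p
  obtain ⟨pt, hpt⟩ : ∃ pt : Hol q d × (σ → Fin N) → K, ∀ i β, pt (i, β) =
      φ (lm p (map π FR) (texp p i) (monomial (bx β) 1)) := ⟨fun x => φ (lm p (map π FR) (texp p x.1) (monomial (bx x.2) 1)), fun i β => rfl⟩
  have hmin : ∀ β : Hol q d → σ → Fin N, (Matrix.of fun i j : Hol q d => pt (i, β j)).det = 0 := by
    intro β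
    obtain ⟨y, hy1, hy2⟩ := htr β R S K Y φ pt
      (hOk.mono ((Finset.subset_biUnion_of_mem (fun β => C0 β) (Finset.mem_univ β)).trans
        Finset.subset_union_left)
        (Finset.subset_biUnion_of_mem (fun β => Δ β) (Finset.mem_univ β)))
      (fun i β => by rw [hpt, hY]) (fun i β hβ => by
        rw [hpt, lm_zero q p (map π FR) d hFS, map_zero]
        intro j hj h1
        apply hβ
        have h2 := weight_texp p hp1 i
        obtain ⟨r, hr⟩ : ∃ r, p = j + r := ⟨p - j, by omega⟩
        rw [hr, add_mul] at h2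
        refine ⟨r, ?_⟩
        rw [mul_comm d r]
        rw [hr] at h1
        omega) (fun i s P => by
        rw [hY]
        refine lm_exact p q (map π FR) d hFS (texp p i) (top_texp p hp1 i) s ?_ P
        have h2 := weight_texp p hp1 i
        have := hσ s
        omega)
    have h1 : y = detP R β ^ e β := by
      apply map_injective Y.iR Y.hiR
      rw [hy1, map_pow, map_detP]
    rw [h1] at hy2
    have h2 : eval₂ (φ.comp Y.π) pt (detP R β) = 0 := by
      rw [eval₂_pow] at hy2
      by_contra hne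
      exact pow_ne_zero _ hne hy2
    rw [eval_detP] at h2
    exact h2
  obtain ⟨v, hv0, hv⟩ := exists_dep' (fun (i : Hol q d) β => pt (i, β)) hmin
  apply hv0
  -- the combination of the functionals over `K`
  obtain ⟨FK, hFK⟩ : ∃ FK, FK = map (φ.comp π) FR := ⟨_, rfl⟩
  have hFKh : IsWeightedHomogeneous q FK d := by
    intro m hm
    apply hFRh
    intro h0
    apply hm
    rw [hFK, coeff_map, h0, map_zero]
  have hJK : Jac q FK d N := by rw [hFK]; exact hJR.map _
  obtain ⟨ν, hν⟩ : ∃ ν : MvPolynomial σ K →ₗ[K] K, ν = ∑ i : Hol q d, v i • lm p FK (texp p i) :=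
    ⟨_, rfl⟩
  have hνa : ∀ P, ν P = ∑ i : Hol q d, v i * lm p FK (texp p i) P := by
    intro P
    rw [hν, LinearMap.sum_apply]
    rfl
  have hνex : ∀ s P, ν (pderiv s P + P * pderiv s FK) = 0 := by
    intro s P
    rw [hνa]
    apply Finset.sum_eq_zero
    intro i _
    rw [lm_exact p q FK d hFKh (texp p i) (top_texp p hp1 i) s, mul_zero]
    have h2 := weight_texp p hp1 i
    have := hσ s
    omega
  have hνb : ∀ β : σ → Fin N, ν (monomial (bx β) 1) = 0 := by
    intro β
    rw [hνa, ← hv β]
    refine Finset.sum_congr rfl fun i _ => ?_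
    rw [hpt, lm_map, map_map, ← hFK, map_monomial, RingHom.map_one]
  have hν0 : ∀ m, ν (monomial m 1) = 0 := by
    intro m
    obtain ⟨c, -, hc⟩ := red (q := q) hd hJK m
    have h1 := functional_eq ν hνex _ hc
    rw [map_sub, sub_eq_zero, map_sum] at h1
    rw [h1]
    apply Finset.sum_eq_zero
    intro β _
    rw [← smul_eq_C_mul, map_smul, hνb, smul_zero]
  funext j
  have h1 := hν0 (texp p j)
  rw [hνa, Finset.sum_eq_single j] at h1
  · rw [lm_monomial p q FK d hd hFKh _ _ 0 (by omega) (by simp), ifac_zero, pow_zero, mul_one,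
      coeff_monomial, if_pos rfl, one_mul, mul_one] at h1
    exact h1
  · intro b _ hb
    rw [lm_monomial p q FK d hd hFKh _ _ 0 (by omega) (by
      have h2 := weight_texp p hp1 b
      have h3 := weight_texp p hp1 j
      omega), pow_zero, mul_one, coeff_monomial, if_neg, mul_zero, mul_zero]
    intro h2
    exact hb (texp_injective p hp1 h2).symm
  · intro h2; exact absurd (Finset.mem_univ _) h2

end Pool.Agent.D0H58.HS
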