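import Pool.Agent.D0H58.HS.Tens

/-! Reduction of the pole order in the Dwork cohomology. -/

set_option autoImplicit false
set_option linter.unusedSectionVars false

open MvPolynomial

namespace Pool.Agent.D0H58.HS

section

variable {σ A : Type*} [CommRing A] [Fintype σ] [DecidableEq σ]

/-- exact forms -/
def Ex (F Q : MvPolynomial σ A) : Prop :=
  ∃ P : σ → MvPolynomial σ A, Q = ∑ s, (pderiv s (P s) + P s * pderiv s F)

variable {F : MvPolynomial σ A}

lemma Ex.zero : Ex F 0 := ⟨0, by simp⟩

lemma Ex.add {Q Q' : MvPolynomial σ A} (h : Ex F Q) (h' : Ex F Q') : Ex F (Q + Q') := by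
  obtain ⟨P, rfl⟩ := h
  obtain ⟨P', rfl⟩ := h'
  refine ⟨P + P', ?_⟩
  rw [← Finset.sum_add_distrib]
  refine Finset.sum_congr rfl fun s _ => ?_
  rw [Pi.add_apply, map_add]
  ring

lemma Ex.C_mul (c : A) {Q : MvPolynomial σ A} (h : Ex F Q) : Ex F (C c * Q) := by
  obtain ⟨P, rfl⟩ := h
  refine ⟨fun s => C c * P s, ?_⟩
  rw [Finset.mul_sum]
  refine Finset.sum_congr rfl fun s _ => ?_
  rw [pderiv_C_mul]
  ring

lemma Ex.neg {Q : MvPolynomial σ A} (h : Ex F Q) : Ex F (-Q) := by
  have := h.C_mul (-1)
  rwa [map_neg, C_1, neg_mul, one_mul] at this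

lemma Ex.sum {ι : Type*} (T : Finset ι) (Q : ι → MvPolynomial σ A) (h : ∀ i ∈ T, Ex F (Q i)) :
    Ex F (∑ i ∈ T, Q i) := by
  classical
  induction T using Finset.induction_on with
  | empty => rw [Finset.sum_empty]; exact Ex.zero
  | insert b T hb ih =>
    rw [Finset.sum_insert hb]
    exact (h b (Finset.mem_insert_self _ _)).add (ih fun i hi => h i (Finset.mem_insert_of_mem hi))

lemma Ex.single (s : σ) (P : MvPolynomial σ A) : Ex F (pderiv s P + P * pderiv s F) := by
  refine ⟨Pi.single s P, ?_⟩
  rw [Finset.sum_eq_single s]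
  · rw [Pi.single_eq_same]
  · intro b _ hb
    rw [Pi.single_eq_of_ne hb]
    simp
  · intro h; exact absurd (Finset.mem_univ _) h

lemma Ex.map {B : Type*} [CommRing B] (φ : A →+* B) {Q : MvPolynomial σ A} (h : Ex F Q) :
    Ex (MvPolynomial.map φ F) (MvPolynomial.map φ Q) := by
  obtain ⟨P, rfl⟩ := h
  refine ⟨fun s => MvPolynomial.map φ (P s), ?_⟩
  rw [map_sum]
  refine Finset.sum_congr rfl fun s _ => ?_
  rw [map_add, map_mul, pderiv_map, pderiv_map]

/-- monomials with small exponents -/
noncomputable def bx {N : ℕ} (β : σ → Fin N) : σ →₀ ℕ :=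
  Finsupp.equivFunOnFinite.symm fun s => (β s : ℕ)

/-- the powers of the variables are in the Jacobian ideal -/
def Jac (q : σ → ℕ) (F : MvPolynomial σ A) (d N : ℕ) : Prop :=
  ∀ s, ∃ G : σ → MvPolynomial σ A, X s ^ N = ∑ i, G i * pderiv i F ∧
    ∀ i, ∀ m ∈ (G i).support, Finsupp.weight q m + d = N * q s + q i

lemma Jac.map {B : Type*} [CommRing B] (φ : A →+* B) {q : σ → ℕ} {d N : ℕ} (h : Jac q F d N) :
    Jac q (MvPolynomial.map φ F) d N := by
  intro s
  obtain ⟨G, h1, h2⟩ := h s
  refine ⟨fun i => MvPolynomial.map φ (G i), ?_, fun i m hm => h2 i m ?_⟩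
  · have := congrArg (MvPolynomial.map φ) h1
    rw [map_pow, map_X, map_sum] at this
    rw [this]
    refine Finset.sum_congr rfl fun i _ => ?_
    rw [map_mul, pderiv_map]
  · rw [mem_support_iff] at hm ⊢
    intro h0
    apply hm
    rw [coeff_map, h0, map_zero]

/-- reducible polynomials -/
def Rd (q : σ → ℕ) (F : MvPolynomial σ A) (d N κ : ℕ) (P : MvPolynomial σ A) : Prop :=
  ∃ c : (σ → Fin N) → A, (∀ β, c β ≠ 0 → Finsupp.weight q (bx β) ≡ κ [MOD d]) ∧
    Ex F (P - ∑ β, C (c β) * monomial (bx β) 1)

variable {q : σ → ℕ} {d N κ : ℕ}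

lemma Rd.zero : Rd q F d N κ 0 := ⟨0, fun β h => absurd rfl h, by simp [Ex.zero]⟩

lemma Rd.add {P P' : MvPolynomial σ A} (h : Rd q F d N κ P) (h' : Rd q F d N κ P') :
    Rd q F d N κ (P + P') := by
  obtain ⟨c, h1, h2⟩ := h
  obtain ⟨c', h3, h4⟩ := h'
  refine ⟨c + c', fun β hβ => ?_, ?_⟩
  · by_cases h0 : c β = 0
    · apply h3
      intro h5
      apply hβ
      rw [Pi.add_apply, h0, h5, add_zero]
    · exact h1 β h0
  · have e : P + P' - ∑ β, C ((c + c') β) * monomial (bx β) 1 =
        (P - ∑ β, C (c β) * monomial (bx β) 1) + (P' - ∑ β, C (c' β) * monomial (bx β) 1) := by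
      have e2 : ∑ β, C ((c + c') β) * monomial (bx β) (1 : A) =
          ∑ β, C (c β) * monomial (bx β) 1 + ∑ β, C (c' β) * monomial (bx β) 1 := by
        rw [← Finset.sum_add_distrib]
        refine Finset.sum_congr rfl fun β _ => ?_
        rw [Pi.add_apply, C_add, add_mul]
      rw [e2]; ring
    rw [e]
    exact h2.add h4

lemma Rd.C_mul (a : A) {P : MvPolynomial σ A} (h : Rd q F d N κ P) : Rd q F d N κ (C a * P) := by
  obtain ⟨c, h1, h2⟩ := h
  refine ⟨fun β => a * c β, fun β hβ => h1 β fun h0 => hβ (by simp only [h0, mul_zero]), ?_⟩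
  have e : C a * P - ∑ β, C (a * c β) * monomial (bx β) 1 =
      C a * (P - ∑ β, C (c β) * monomial (bx β) 1) := by
    rw [mul_sub, Finset.mul_sum]
    congr 1
    refine Finset.sum_congr rfl fun β _ => ?_
    rw [MvPolynomial.C_mul, mul_assoc]
  rw [e]
  exact h2.C_mul a

lemma Rd.sum {ι : Type*} (T : Finset ι) (P : ι → MvPolynomial σ A)
    (h : ∀ i ∈ T, Rd q F d N κ (P i)) : Rd q F d N κ (∑ i ∈ T, P i) := by
  classical
  induction T using Finset.induction_on with
  | empty => rw [Finset.sum_empty]; exact Rd.zero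
  | insert b T hb ih =>
    rw [Finset.sum_insert hb]
    exact (h b (Finset.mem_insert_self _ _)).add (ih fun i hi => h i (Finset.mem_insert_of_mem hi))

lemma Rd.of_support {P : MvPolynomial σ A} (h : ∀ m ∈ P.support, Rd q F d N κ (monomial m 1)) :
    Rd q F d N κ P := by
  rw [P.as_sum]
  refine Rd.sum _ _ fun m hm => ?_
  have e : (monomial m (coeff m P) : MvPolynomial σ A) = C (coeff m P) * monomial m 1 := by
    rw [C_mul_monomial, mul_one]
  rw [e]
  exact (h m hm).C_mul _

lemma Rd.congr {P P' : MvPolynomial σ A} (h : Rd q F d N κ P) (h' : Ex F (P' - P)) :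
    Rd q F d N κ P' := by
  obtain ⟨c, h1, h2⟩ := h
  refine ⟨c, h1, ?_⟩
  have := h'.add h2
  rwa [sub_add_sub_cancel] at this

omit [Fintype σ] in
lemma pderiv_support (i : σ) (P : MvPolynomial σ A) (m : σ →₀ ℕ) (hm : m ∈ (pderiv i P).support) :
    m + Finsupp.single i 1 ∈ P.support := by
  rw [mem_support_iff] at hm ⊢
  intro h0
  apply hm
  rw [coeff_pderiv, h0]
  simp

/-- every monomial is reducible -/
lemma red (hd : 1 ≤ d) (h : Jac q F d N) (m : σ →₀ ℕ) :
    Rd q F d N (Finsupp.weight q m) (monomial m 1) := by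
  obtain ⟨w, hw⟩ : ∃ w, w = Finsupp.weight q m := ⟨_, rfl⟩
  rw [← hw]
  induction w using Nat.strong_induction_on generalizing m with
  | _ w ih =>
    by_cases hbox : ∀ s, m s < N
    · refine ⟨Pi.single (fun s => ⟨m s, hbox s⟩) 1, fun β hβ => ?_, ?_⟩
      · have h1 : β = fun s => ⟨m s, hbox s⟩ := by
          by_contra h2
          exact hβ (Pi.single_eq_of_ne h2 _)
        have h2 : bx β = m := by
          ext s
          rw [h1]; rfl
        rw [h2, hw]
      · have h2 : bx (fun s => (⟨m s, hbox s⟩ : Fin N)) = m := by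
          ext s; rfl
        rw [Finset.sum_eq_single (fun s => ⟨m s, hbox s⟩)]
        · rw [Pi.single_eq_same, C_1, one_mul, h2, sub_self]
          exact Ex.zero
        · intro b _ hb
          rw [Pi.single_eq_of_ne hb, C_0, zero_mul]
        · intro h3; exact absurd (Finset.mem_univ _) h3
    · push Not at hbox
      obtain ⟨s, hs⟩ := hbox
      obtain ⟨G, hG1, hG2⟩ := h s
      have hm : m = (m - Finsupp.single s N) + Finsupp.single s N := by
        rw [tsub_add_cancel_of_le]
        rw [Finsupp.single_le_iff]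
        exact hs
      obtain ⟨m', hm'⟩ : ∃ m', m' = m - Finsupp.single s N := ⟨_, rfl⟩
      rw [← hm'] at hm
      have hw2 : w = Finsupp.weight q m' + N * q s := by
        rw [hw, hm, map_add, Finsupp.weight_single, smul_eq_mul]
      have hx : (monomial m 1 : MvPolynomial σ A) = ∑ i, (monomial m' 1 * G i) * pderiv i F := by
        have : (monomial m 1 : MvPolynomial σ A) = monomial m' 1 * X s ^ N := by
          rw [X_pow_eq_monomial, monomial_mul, mul_one, ← hm]
        rw [this, hG1, Finset.mul_sum]
        refine Finset.sum_congr rfl fun i _ => ?_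
        ring
      have hred : Rd q F d N w (-∑ i, pderiv i (monomial m' 1 * G i)) := by
        have e : -∑ i, pderiv i (monomial m' 1 * G i) =
            C (-1 : A) * ∑ i, pderiv i (monomial m' 1 * G i) := by
          rw [map_neg, C_1]; ring
        rw [e]
        refine Rd.C_mul _ (Rd.sum _ _ fun i _ => Rd.of_support fun m'' hm'' => ?_)
        have h3 := pderiv_support i _ _ hm''
        have h4 := support_mul _ _ h3
        rw [Finset.mem_add] at h4
        obtain ⟨y, hy, z, hz, hyz⟩ := h4
        have h5 : y = m' := by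
          have := support_monomial_subset hy
          rwa [Finset.mem_singleton] at this
        have h6 := hG2 i z hz
        have h7 : Finsupp.weight q m'' + q i = Finsupp.weight q m' + Finsupp.weight q z := by
          rw [← h5, ← map_add, hyz, map_add, Finsupp.weight_single, smul_eq_mul, one_mul]
        have h8 : Finsupp.weight q m'' + d = w := by
          rw [hw2]; omega
        obtain ⟨c, hc1, hc2⟩ := ih (Finsupp.weight q m'') (by omega) m'' rfl
        refine ⟨c, fun β hβ => (hc1 β hβ).trans ?_, hc2⟩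
        rw [← h8]
        exact (Nat.add_modEq_right).symm
      refine hred.congr ?_
      rw [sub_neg_eq_add, hx, ← Finset.sum_add_distrib]
      refine Ex.sum _ _ fun i _ => ?_
      rw [add_comm]
      exact Ex.single i _

/-- functionals are determined by their values at the monomials with small exponents -/
lemma functional_eq (μ : MvPolynomial σ A →ₗ[A] A)
    (hμ : ∀ s P, μ (pderiv s P + P * pderiv s F) = 0) (Q : MvPolynomial σ A) (hQ : Ex F Q) :
    μ Q = 0 := by
  obtain ⟨P, rfl⟩ := hQ
  rw [map_sum]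
  exact Finset.sum_eq_zero fun s _ => hμ s _

end

/-- the Nullstellensatz -/
lemma jac_of_smooth {σ E k : Type*} [Fintype σ] [DecidableEq σ] [Field E] [Field k] [Algebra E k]
    [IsAlgClosed k] (q : σ → ℕ) (F : MvPolynomial σ E) (d : ℕ) (hF : IsWeightedHomogeneous q F d)
    (hs : ∀ x : σ → k, (∀ s, aeval x (pderiv s F) = 0) → x = 0) : ∃ N, Jac q F d N := by
  classical
  have h1 : ∀ s, ∃ N, (X s : MvPolynomial σ E) ^ N ∈ Ideal.span (Set.range fun i => pderiv i F) := by
    intro s
    have h2 : (X s : MvPolynomial σ E) ∈ (Ideal.span (Set.range fun i => pderiv i F)).radical := by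
      rw [← vanishingIdeal_zeroLocus_eq_radical (K := k), mem_vanishingIdeal_iff]
      intro v hv
      rw [mem_zeroLocus_iff] at hv
      have h3 := hs v fun i => hv _ (Ideal.subset_span ⟨i, rfl⟩)
      rw [aeval_X, h3]
      rfl
    exact h2
  choose n hn using h1
  refine ⟨∑ s, n s, fun s => ?_⟩
  obtain ⟨N, hN⟩ : ∃ N, N = ∑ s, n s := ⟨_, rfl⟩
  rw [← hN]
  have h4 : (X s : MvPolynomial σ E) ^ N ∈ Ideal.span (Set.range fun i => pderiv i F) := by
    have h5 : n s ≤ N := by
      rw [hN]; exact Finset.single_le_sum (fun _ _ => Nat.zero_le _) (Finset.mem_univ s)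
    have h6 : (X s : MvPolynomial σ E) ^ N = X s ^ (N - n s) * X s ^ n s := by
      rw [← pow_add, Nat.sub_add_cancel h5]
    rw [h6]
    exact Ideal.mul_mem_left _ _ (hn s)
  obtain ⟨G, hG⟩ := Ideal.mem_span_range_iff_exists_fun.1 h4
  -- the homogeneous parts
  obtain ⟨G', hG'⟩ : ∃ G' : σ → MvPolynomial σ E, ∀ i m, coeff m (G' i) =
      if Finsupp.weight q m + d = N * q s + q i then coeff m (G i) else 0 := by
    refine ⟨fun i => ∑ m ∈ (G i).support, if Finsupp.weight q m + d = N * q s + q i then
      monomial m (coeff m (G i)) else 0, fun i m => ?_⟩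
    rw [coeff_sum]
    by_cases hm : m ∈ (G i).support
    · rw [Finset.sum_eq_single m]
      · split_ifs
        · rw [coeff_monomial, if_pos rfl]
        · rfl
      · intro b _ hb
        split_ifs
        · rw [coeff_monomial, if_neg hb]
        · rfl
      · intro h; exact absurd hm h
    · rw [Finset.sum_eq_zero]
      · rw [notMem_support_iff.1 hm]; simp
      · intro b hb
        split_ifs
        · rw [coeff_monomial, if_neg]
          rintro rfl; exact hm hb
        · rfl
  have hpd : ∀ i y, coeff y (pderiv i F) ≠ 0 → Finsupp.weight q y + q i = d := by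
    intro i y hy
    have h5 := pderiv_support i F y (mem_support_iff.2 hy)
    have h6 := hF (mem_support_iff.1 h5)
    rw [map_add, Finsupp.weight_single, smul_eq_mul, one_mul] at h6
    exact h6
  refine ⟨G', ?_, fun i m hm => ?_⟩
  · ext α
    rw [coeff_sum]
    simp only [coeff_mul, hG']
    by_cases hα : Finsupp.weight q α = N * q s
    · have h5 := congrArg (coeff α) hG
      rw [coeff_sum] at h5
      rw [← h5]
      refine Finset.sum_congr rfl fun i _ => ?_
      rw [coeff_mul]
      refine Finset.sum_congr rfl fun x hx => ?_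
      rw [Finset.HasAntidiagonal.mem_antidiagonal] at hx
      by_cases hy : coeff x.2 (pderiv i F) = 0
      · rw [hy, mul_zero, mul_zero]
      · have h6 := hpd i _ hy
        have h7 : Finsupp.weight q x.1 + Finsupp.weight q x.2 = N * q s := by
          rw [← map_add, hx, hα]
        rw [if_pos (by omega)]
    · rw [Finset.sum_eq_zero, X_pow_eq_monomial, coeff_monomial, if_neg]
      · rintro rfl
        apply hα
        rw [Finsupp.weight_single, smul_eq_mul]
      · intro i _
        apply Finset.sum_eq_zero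
        intro x hx
        rw [Finset.HasAntidiagonal.mem_antidiagonal] at hx
        by_cases hy : coeff x.2 (pderiv i F) = 0
        · rw [hy, mul_zero]
        · have h6 := hpd i _ hy
          have h7 : Finsupp.weight q x.1 + Finsupp.weight q x.2 = Finsupp.weight q α := by
            rw [← map_add, hx]
          rw [if_neg, zero_mul]
          intro h8
          apply hα
          omega
  · rw [mem_support_iff, hG'] at hm
    by_contra h0
    rw [if_neg h0] at hm
    exact hm rfl

end Pool.Agent.D0H58.HS
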