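import Pool.Agent.D0H58.HS.Basic
import Pool.Agent.D0H58.OR.Tens

/-! Tensors in the Dwork complex: polynomials in several groups of variables. -/

set_option autoImplicit false

open MvPolynomial

namespace Pool.Agent.D0H58.HS

open Pool.Agent.D0H58.OR (deriv_prod)

section part

variable {I σ : Type*}

/-- the exponents of the `i`-th group of variables -/
noncomputable def part (α : I × σ →₀ ℕ) (i : I) : σ →₀ ℕ :=
  α.comapDomain (Prod.mk i) (Prod.mk_right_injective i).injOn

lemma part_apply (α : I × σ →₀ ℕ) (i : I) (s : σ) : part α i s = α (i, s) := rfl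

lemma part_add (α β : I × σ →₀ ℕ) (i : I) : part (α + β) i = part α i + part β i := by
  ext s
  simp [part_apply]

lemma part_zero (i : I) : part (0 : I × σ →₀ ℕ) i = 0 := by
  ext s
  simp [part_apply]

lemma part_sum {ι : Type*} (T : Finset ι) (f : ι → (I × σ →₀ ℕ)) (i : I) :
    part (∑ j ∈ T, f j) i = ∑ j ∈ T, part (f j) i := by
  ext s
  simp [part_apply, Finsupp.finsetSum_apply]

lemma part_mapDomain [DecidableEq I] (i j : I) (m : σ →₀ ℕ) :
    part (m.mapDomain (Prod.mk i)) j = if i = j then m else 0 := by
  ext s
  rw [part_apply]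
  split_ifs with h
  · subst h
    exact Finsupp.mapDomain_apply (Prod.mk_right_injective i) m s
  · rw [Finsupp.mapDomain_of_notMem_range, Finsupp.zero_apply]
    rintro ⟨t, ht⟩
    exact h (congrArg Prod.fst ht)

end part

section val

variable {I σ A : Type*} [CommRing A] [Fintype I]

/-- The value of a tensor at a family of functionals on polynomials, given by their values at the
monomials. -/
noncomputable def val (μ : I → (σ →₀ ℕ) → A) (T : MvPolynomial (I × σ) A) : A :=
  ∑ α ∈ T.support, T.coeff α * ∏ i, μ i (part α i)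

lemma val_eq (μ : I → (σ →₀ ℕ) → A) (T : MvPolynomial (I × σ) A) (S : Finset (I × σ →₀ ℕ))
    (h : T.support ⊆ S) : val μ T = ∑ α ∈ S, T.coeff α * ∏ i, μ i (part α i) := by
  unfold val
  apply Finset.sum_subset h
  intro α _ hα
  rw [notMem_support_iff.1 hα, zero_mul]

lemma val_zero (μ : I → (σ →₀ ℕ) → A) : val μ 0 = 0 := by
  unfold val; simp

lemma val_add (μ : I → (σ →₀ ℕ) → A) (T T' : MvPolynomial (I × σ) A) :
    val μ (T + T') = val μ T + val μ T' := by
  classical
  rw [val_eq μ (T + T') (T.support ∪ T'.support) support_add, val_eq μ T (T.support ∪ T'.support)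
    Finset.subset_union_left, val_eq μ T' (T.support ∪ T'.support) Finset.subset_union_right,
    ← Finset.sum_add_distrib]
  refine Finset.sum_congr rfl fun α _ => ?_
  rw [coeff_add, add_mul]

lemma val_C_mul (μ : I → (σ →₀ ℕ) → A) (c : A) (T : MvPolynomial (I × σ) A) :
    val μ (C c * T) = c * val μ T := by
  classical
  rw [val_eq μ (C c * T) T.support, val, Finset.mul_sum]
  · refine Finset.sum_congr rfl fun α _ => ?_
    rw [coeff_C_mul, mul_assoc]
  · intro α hα
    rw [mem_support_iff] at hα ⊢
    intro h
    apply hα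
    rw [coeff_C_mul, h, mul_zero]

lemma val_monomial (μ : I → (σ →₀ ℕ) → A) (α : I × σ →₀ ℕ) (c : A) :
    val μ (monomial α c) = c * ∏ i, μ i (part α i) := by
  classical
  rw [val_eq μ (monomial α c) {α} support_monomial_subset, Finset.sum_singleton, coeff_monomial,
    if_pos rfl]

lemma val_sum {ι : Type*} (μ : I → (σ →₀ ℕ) → A) (S : Finset ι) (T : ι → MvPolynomial (I × σ) A) :
    val μ (∑ j ∈ S, T j) = ∑ j ∈ S, val μ (T j) := by
  classical
  induction S using Finset.induction_on with
  | empty => simp [val_zero]
  | insert b S hb ih => rw [Finset.sum_insert hb, Finset.sum_insert hb, val_add, ih]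

/-- the Gauss-Manin connection on tensors -/
noncomputable def nab (D : Derivation ℤ A A) (F : MvPolynomial σ A) (T : MvPolynomial (I × σ) A) :
    MvPolynomial (I × σ) A :=
  Dm D T + (∑ i, rename (Prod.mk i) (Dm D F)) * T

lemma nab_add (D : Derivation ℤ A A) (F : MvPolynomial σ A) (T T' : MvPolynomial (I × σ) A) :
    nab D F (T + T') = nab D F T + nab D F T' := by
  unfold nab
  rw [Dm_add]; ring

lemma nab_zero (D : Derivation ℤ A A) (F : MvPolynomial σ A) :
    nab D F (0 : MvPolynomial (I × σ) A) = 0 := by
  unfold nab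
  rw [Dm_zero]; ring

lemma Dm_C (D : Derivation ℤ A A) (c : A) : Dm D (C c : MvPolynomial σ A) = C (D c) :=
  Dm_monomial D 0 c

lemma nab_C_mul (D : Derivation ℤ A A) (F : MvPolynomial σ A) (c : A) (T : MvPolynomial (I × σ) A) :
    nab D F (C c * T) = C (D c) * T + C c * nab D F T := by
  unfold nab
  rw [Dm_mul, Dm_C]; ring

variable [DecidableEq I]

/-- the value at a product with a polynomial in one group of variables -/
lemma val_slot (l : I → MvPolynomial σ A →ₗ[A] A) (i : I) (G : MvPolynomial σ A)
    (α : I × σ →₀ ℕ) (c : A) :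
    val (fun i m => l i (monomial m 1)) (rename (Prod.mk i) G * monomial α c) =
      c * (l i (G * monomial (part α i) 1) * ∏ j ∈ Finset.univ.erase i, l j (monomial (part α j) 1)) := by
  induction G using MvPolynomial.induction_on' with
  | monomial u a =>
    have h1 : ∀ j, part (Finsupp.mapDomain (Prod.mk i) u + α) j =
        if i = j then u + part α i else part α j := by
      intro j
      rw [part_add, part_mapDomain]
      split_ifs with h
      · subst h; rfl
      · rw [zero_add]
    rw [rename_monomial, monomial_mul, val_monomial, monomial_mul,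
      ← Finset.mul_prod_erase _ _ (Finset.mem_univ i), h1 i, if_pos rfl, mul_one]
    have h2 : ∏ j ∈ Finset.univ.erase i, l j (monomial (part (Finsupp.mapDomain (Prod.mk i) u + α) j) 1) =
        ∏ j ∈ Finset.univ.erase i, l j (monomial (part α j) 1) := by
      refine Finset.prod_congr rfl fun j hj => ?_
      rw [h1, if_neg (Finset.ne_of_mem_erase hj).symm]
    rw [h2]
    have h3 : (monomial (u + part α i) a : MvPolynomial σ A) = a • monomial (u + part α i) 1 := by
      rw [smul_monomial, smul_eq_mul, mul_one]
    rw [h3, map_smul, smul_eq_mul]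
    ring
  | add P Q hP hQ =>
    rw [map_add, add_mul, val_add, hP, hQ, add_mul, map_add]
    ring

/-- the values at horizontal functionals -/
lemma val_deriv (D : Derivation ℤ A A) (F : MvPolynomial σ A) (l : I → MvPolynomial σ A →ₗ[A] A)
    (hl : ∀ i P, D (l i P) = l i (Dm D P + Dm D F * P)) (T : MvPolynomial (I × σ) A) :
    D (val (fun i m => l i (monomial m 1)) T) = val (fun i m => l i (monomial m 1)) (nab D F T) := by
  induction T using MvPolynomial.induction_on' with
  | monomial α c =>
    have h1 : ∀ i (m : σ →₀ ℕ), D (l i (monomial m 1)) = l i (Dm D F * monomial m 1) := by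
      intro i m
      rw [hl, Dm_monomial, D.map_one_eq_zero, monomial_zero, zero_add]
    unfold nab
    rw [val_add, Dm_monomial, val_monomial, val_monomial, Finset.sum_mul, val_sum,
      Derivation.leibniz, smul_eq_mul, smul_eq_mul]
    have h2 : D (∏ i, l i (monomial (part α i) 1)) =
        ∑ i, (∏ j ∈ Finset.univ.erase i, l j (monomial (part α j) 1)) *
          D (l i (monomial (part α i) 1)) :=
      deriv_prod D Finset.univ _
    rw [h2, Finset.mul_sum, add_comm]
    congr 1
    · ring
    · refine Finset.sum_congr rfl fun i _ => ?_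
      rw [val_slot, h1]
      ring
  | add P Q hP hQ => rw [val_add, map_add, hP, hQ, nab_add, val_add]

end val

section vol

variable {I σ A : Type*} [CommRing A] [Fintype I] [DecidableEq I]

/-- the tensor of the product of the forms with the exponents `w i` -/
noncomputable def vol (A : Type*) [CommRing A] (w : I → σ →₀ ℕ) : MvPolynomial (I × σ) A :=
  (Matrix.of fun i j : I => rename (Prod.mk i) (monomial (w j) (1 : A))).det

lemma val_vol (μ : I → (σ →₀ ℕ) → A) (w : I → σ →₀ ℕ) :
    val μ (vol A w) = (Matrix.of fun i j : I => μ i (w j)).det := by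
  unfold vol
  rw [Matrix.det_apply, Matrix.det_apply, val_sum]
  refine Finset.sum_congr rfl fun τ _ => ?_
  have h1 : ∏ i, (Matrix.of fun i j : I => rename (Prod.mk i) (monomial (w j) (1 : A))) (τ i) i =
      monomial (∑ i, (w i).mapDomain (Prod.mk (τ i))) (1 : A) := by
    rw [monomial_sum_one]
    refine Finset.prod_congr rfl fun i _ => ?_
    rw [Matrix.of_apply, rename_monomial]
  have h2 : ∀ c : ℤˣ, ∀ T : MvPolynomial (I × σ) A, val μ (c • T) = c • val μ T := by
    intro c T
    rcases Int.units_eq_one_or c with rfl | rfl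
    · rw [one_smul, one_smul]
    · have h3 : (-1 : ℤˣ) • T = C (-1 : A) * T := by
        rw [Units.neg_smul, one_smul, map_neg, C_1]; ring
      rw [h3, val_C_mul, Units.neg_smul, one_smul]
      ring
  rw [h1, h2, val_monomial, one_mul]
  congr 1
  have h3 : ∀ j, part (∑ i, (w i).mapDomain (Prod.mk (τ i))) j = w (τ.symm j) := by
    intro j
    rw [part_sum, Finset.sum_eq_single (τ.symm j)]
    · rw [part_mapDomain, if_pos (by simp)]
    · intro b _ hb
      rw [part_mapDomain, if_neg]
      rintro rfl
      simp at hb
    · intro h; exact absurd (Finset.mem_univ _) h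
  simp only [h3]
  rw [← Equiv.prod_comp τ]
  refine Finset.prod_congr rfl fun i _ => ?_
  rw [Equiv.symm_apply_apply, Matrix.of_apply]

end vol

end Pool.Agent.D0H58.HS
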